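import Pool.Agent.T2h14.HT.Stm2

set_option autoImplicit false

namespace Pool.Agent.T2h14.HT

open Polynomial Pool.Agent.W521.Frob Pool.Agent.W521.Descent Pool.Agent.W521.Density
  Pool.Agent.W521.Count Pool.Agent.W484.TB

namespace ADM

theorem rt_nonneg (q m : ℕ) : 0 ≤ rt q m := by
  unfold rt
  have : 0 ≤ Real.log q := Real.log_natCast_nonneg q
  positivity

theorem rt_pos {q : ℕ} (hq : 2 ≤ q) (m : ℕ) : 0 < rt q m := by
  unfold rt
  have h1 : (1 : ℝ) < q := by exact_mod_cast hq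
  have h2 : 0 < Real.log q := Real.log_pos h1
  have h3 : (0 : ℝ) < q := by linarith
  positivity

/-- `1 ≤ 2 rt q m * √q ^ m` for `q ≥ 2` -/
theorem one_le {q : ℕ} (hq : 2 ≤ q) (m : ℕ) : 1 ≤ 2 * rt q m * Real.sqrt q ^ m := by
  have h1 : (1 : ℝ) ≤ q := by
    have : (2 : ℝ) ≤ q := by exact_mod_cast hq
    linarith
  have h2 : (1 : ℝ) / 2 ≤ Real.log q := by
    have h3 : Real.log 2 ≤ Real.log q := Real.log_le_log (by norm_num) (by exact_mod_cast hq)
    have h4 := Real.log_two_gt_d9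
    linarith
  have h0 : (0 : ℝ) ≤ q := by linarith
  have h5 : (q : ℝ) ^ (-((m : ℝ) / 6)) * Real.sqrt q ^ m = (q : ℝ) ^ ((m : ℝ) / 3) := by
    rw [Real.sqrt_eq_rpow, ← Real.rpow_natCast ((q : ℝ) ^ (1 / 2 : ℝ)), ← Real.rpow_mul h0,
      ← Real.rpow_add (by linarith)]
    congr 1
    ring
  have h6 : (1 : ℝ) ≤ (q : ℝ) ^ ((m : ℝ) / 3) := Real.one_le_rpow h1 (by positivity)
  unfold rt
  calc (1 : ℝ) ≤ 2 * Real.log q * (q : ℝ) ^ ((m : ℝ) / 3) := by nlinarith
    _ = _ := by rw [← h5]; ring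

end ADM

theorem adm (hX : V_BXM) (hPr : V_PDM) (hA : V_DAM) (hB : V_DBM) : V_ADM := by
  intro I _ _ g w m e U P hU hE hP
  classical
  obtain ⟨C, hC0, hC⟩ := hA g w m e U hU hE
  set K : ℝ := ∑ i : I, (2 * 4 ^ g i + 1 : ℝ) with hK
  have hK0 : 0 ≤ K := Finset.sum_nonneg fun i _ => by positivity
  set M : ℝ := ∏ i : I, ((3 * 4 ^ g i) ^ g i : ℝ) with hM
  have hM0 : 0 < M := Finset.prod_pos fun i _ => by positivity
  -- the constant for small `q`
  set D : ℝ := (rt 2 m)⁻¹ + (rt 3 m)⁻¹ with hD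
  have hr2 : 0 < rt 2 m := ADM.rt_pos le_rfl m
  have hr3 : 0 < rt 3 m := ADM.rt_pos (by norm_num) m
  have hD0 : 0 < D := by positivity
  refine ⟨(C + 2 * K + D) * M, by positivity, ?_⟩
  intro q hq
  have hq0 : 0 < q := hq.pos
  have hq2 : 2 ≤ q := hq.two_le
  have hrq := ADM.rt_nonneg q m
  set Y : Set ((Σ i, Fin (g i)) → ℤ) := {y | y ∈ yboxM g w e q ∧
    ¬ GoodM U g (fun i => q ^ w i) (pt g e q y)} with hY
  set Pr : ℝ := ∏ s : Σ i, Fin (g i), (2 * (bbM g w e q s : ℝ) + 1) with hPr'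
  have hPr0 : 0 ≤ Pr := Finset.prod_nonneg fun s _ => by positivity
  have hYfin : Y.Finite := (yboxM g w e q).finite_toSet.subset fun y hy => hy.1
  -- reduction to the points of the box
  have h1 : {f : I → ℤ[X] | (∀ i, f i ∈ latticeWeil q (w i) (g i) (e i)) ∧ ¬ P q f}.ncard ≤
      Y.ncard := by
    have h2 : {f : I → ℤ[X] | (∀ i, f i ∈ latticeWeil q (w i) (g i) (e i)) ∧ ¬ P q f} ⊆
        (fun y => fun i => weil (q ^ w i) (polys g (pt g e q y) i)) '' Y := by
      rintro f ⟨hf, hPf⟩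
      obtain ⟨y, hy, hfy⟩ := hX g w m e hE q hq0 f hf
      have hfe : f = fun i => weil (q ^ w i) (polys g (pt g e q y) i) := funext hfy
      exact ⟨y, ⟨hy, fun hG => hPf (hfe ▸ hP q hq _ hG)⟩, hfe.symm⟩
    exact (Set.ncard_le_ncard h2 (hYfin.image _)).trans (Set.ncard_image_le hYfin)
  -- the number of bad points
  have h3 : (Y.ncard : ℝ) ≤ (C + 2 * K + D) * rt q m * Pr := by
    by_cases h4 : 4 ≤ q
    · have hsub : Y ⊆ {y : (Σ i, Fin (g i)) → ℤ | y ∈ yboxM g w e q ∧
          (∀ i, ¬ ((q ^ w i : ℕ) : ℤ) ∣ (polys g (pt g e q y) i).nextCoeff ^ 2) ∧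
          ¬ GoodM U g (fun i => q ^ w i) (pt g e q y)} ∪
          ⋃ i ∈ (Finset.univ : Finset I), {y : (Σ i, Fin (g i)) → ℤ | y ∈ yboxM g w e q ∧
            ((q ^ w i : ℕ) : ℤ) ∣ (polys g (pt g e q y) i).nextCoeff ^ 2} := by
        intro y hy
        by_cases hd : ∀ i, ¬ ((q ^ w i : ℕ) : ℤ) ∣ (polys g (pt g e q y) i).nextCoeff ^ 2
        · exact Or.inl ⟨hy.1, hd, hy.2⟩
        · push Not at hd
          obtain ⟨i, hi⟩ := hd
          refine Or.inr ?_
          rw [Set.mem_iUnion₂]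
          exact ⟨i, Finset.mem_univ i, hy.1, hi⟩
      have hf1 : {y : (Σ i, Fin (g i)) → ℤ | y ∈ yboxM g w e q ∧
          (∀ i, ¬ ((q ^ w i : ℕ) : ℤ) ∣ (polys g (pt g e q y) i).nextCoeff ^ 2) ∧
          ¬ GoodM U g (fun i => q ^ w i) (pt g e q y)}.Finite :=
        (yboxM g w e q).finite_toSet.subset fun y hy => hy.1
      have hf2 : ∀ i, {y : (Σ i, Fin (g i)) → ℤ | y ∈ yboxM g w e q ∧
            ((q ^ w i : ℕ) : ℤ) ∣ (polys g (pt g e q y) i).nextCoeff ^ 2}.Finite := fun i =>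
        (yboxM g w e q).finite_toSet.subset fun y hy => hy.1
      have hn1 := Set.ncard_le_ncard hsub
        (hf1.union (Set.Finite.biUnion (Finset.finite_toSet _) fun i _ => hf2 i))
      have hn2 := hn1.trans (Set.ncard_union_le _ _)
      have hn3 := hn2.trans (Nat.add_le_add_left (Finset.set_ncard_biUnion_le Finset.univ
        (fun i => {y : (Σ i, Fin (g i)) → ℤ | y ∈ yboxM g w e q ∧
            ((q ^ w i : ℕ) : ℤ) ∣ (polys g (pt g e q y) i).nextCoeff ^ 2})) _)
      have hb : ∀ i, ({y : (Σ i, Fin (g i)) → ℤ | y ∈ yboxM g w e q ∧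
            ((q ^ w i : ℕ) : ℤ) ∣ (polys g (pt g e q y) i).nextCoeff ^ 2}.ncard : ℝ) ≤
          (2 * 4 ^ g i + 1) * (2 * rt q m * Pr) := by
        intro i
        have h5 := hB g w m e hE i q hq
        have h6 := ADM.one_le hq2 m
        have h7 : (0 : ℝ) ≤ ({y : (Σ i, Fin (g i)) → ℤ | y ∈ yboxM g w e q ∧
            ((q ^ w i : ℕ) : ℤ) ∣ (polys g (pt g e q y) i).nextCoeff ^ 2}.ncard : ℝ) :=
          Nat.cast_nonneg _
        calc _ = ({y : (Σ i, Fin (g i)) → ℤ | y ∈ yboxM g w e q ∧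
              ((q ^ w i : ℕ) : ℤ) ∣ (polys g (pt g e q y) i).nextCoeff ^ 2}.ncard : ℝ) * 1 :=
              (mul_one _).symm
          _ ≤ ({y : (Σ i, Fin (g i)) → ℤ | y ∈ yboxM g w e q ∧
              ((q ^ w i : ℕ) : ℤ) ∣ (polys g (pt g e q y) i).nextCoeff ^ 2}.ncard : ℝ) *
              (2 * rt q m * Real.sqrt q ^ m) := mul_le_mul_of_nonneg_left h6 h7
          _ = (({y : (Σ i, Fin (g i)) → ℤ | y ∈ yboxM g w e q ∧
              ((q ^ w i : ℕ) : ℤ) ∣ (polys g (pt g e q y) i).nextCoeff ^ 2}.ncard : ℝ) *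
              Real.sqrt q ^ m) * (2 * rt q m) := by ring
          _ ≤ ((2 * 4 ^ g i + 1) * Pr) * (2 * rt q m) :=
              mul_le_mul_of_nonneg_right h5 (by positivity)
          _ = _ := by ring
      have hn4 : (Y.ncard : ℝ) ≤ C * rt q m * Pr + K * (2 * rt q m * Pr) := by
        calc (Y.ncard : ℝ) ≤ _ := Nat.cast_le.2 hn3
          _ ≤ _ := by
            push_cast
            refine add_le_add (hC q hq h4) ?_
            rw [hK, Finset.sum_mul]
            exact Finset.sum_le_sum fun i _ => hb i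
      refine hn4.trans ?_
      have h8 : 0 ≤ D * (rt q m * Pr) := by positivity
      nlinarith [h8]
    · have h5 : (Y.ncard : ℝ) ≤ Pr := by
        have h6 : Y.ncard ≤ (yboxM g w e q).card := by
          rw [← Set.ncard_coe_finset]
          exact Set.ncard_le_ncard (fun y hy => hy.1) (Finset.finite_toSet _)
        have h7 : ((yboxM g w e q).card : ℝ) = Pr := by
          unfold yboxM
          rw [Fintype.card_piFinset, Nat.cast_prod, hPr']
          refine Finset.prod_congr rfl fun s _ => ?_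
          rw [Int.card_Icc]
          have : ((bbM g w e q s : ℤ) + 1 - -(bbM g w e q s : ℤ)).toNat = 2 * bbM g w e q s + 1 := by
            omega
          rw [this]
          push_cast
          ring
        rw [← h7]
        exact_mod_cast h6
      have h6 : 1 ≤ D * rt q m := by
        have h7 : q = 2 ∨ q = 3 := by omega
        rcases h7 with h | h
        · rw [h, hD]
          have := mul_inv_cancel₀ hr2.ne'
          have h9 : 0 < (rt 3 m)⁻¹ * rt 2 m := by positivity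
          nlinarith
        · rw [h, hD]
          have := mul_inv_cancel₀ hr3.ne'
          have h9 : 0 < (rt 2 m)⁻¹ * rt 3 m := by positivity
          nlinarith
      calc (Y.ncard : ℝ) ≤ 1 * Pr := by rw [one_mul]; exact h5
        _ ≤ (D * rt q m) * Pr := mul_le_mul_of_nonneg_right h6 hPr0
        _ ≤ _ := by
          refine mul_le_mul_of_nonneg_right ?_ hPr0
          refine mul_le_mul_of_nonneg_right ?_ hrq
          linarith
  have h4 := hPr g w m e hE q hq0
  have h5 : 0 ≤ ∏ i, size q (w i) (g i) (e i) := by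
    refine Finset.prod_nonneg fun i _ => ?_
    unfold size
    exact Finset.prod_nonneg fun k _ => by positivity
  calc _ ≤ (Y.ncard : ℝ) := Nat.cast_le.2 h1
    _ ≤ (C + 2 * K + D) * rt q m * Pr := h3
    _ ≤ (C + 2 * K + D) * rt q m * (M * ∏ i, size q (w i) (g i) (e i)) :=
        mul_le_mul_of_nonneg_left h4 (by positivity)
    _ = _ := by ring

end Pool.Agent.T2h14.HT
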