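import Mathlib
import Pool.Agent.W521.Descent

/-!
# Weil polynomials of Hodge type
-/

set_option autoImplicit false

namespace Pool.Agent.T2h14.HT

open Polynomial Pool.Agent.W521.Descent

/-- The value at `k` of the Hodge polygon with Hodge numbers `h p = h^(p, w - p)` of weight `w`: the sum
of the `k` smallest slopes, where the slope `p` occurs `h p` times. (The number of slopes `≥ p` among
the first `k` is `k - ∑_{p' < p} h p'`, or `0` if this is negative.) -/
def hodgePolygon (w : ℕ) (h : ℕ → ℕ) (k : ℕ) : ℕ :=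
  ∑ p ∈ Finset.Icc 1 w, (k - ∑ p' ∈ Finset.range p, h p')

/-- `h` is a sequence of Hodge numbers `h p = h^(p, w - p)` of weight `w`, with `h p = h (w - p)`, sum
`2 g`, and level at least `m`: some `h p ≠ 0` with `(w - p) - p ≥ m`. -/
structure HodgeNumbers (w g m : ℕ) (h : ℕ → ℕ) : Prop where
  symm : ∀ p, p ≤ w → h (w - p) = h p
  rank : ∑ p ∈ Finset.range (w + 1), h p = 2 * g
  level : ∃ p, h p ≠ 0 ∧ 2 * p + m ≤ w

/-- The polynomials of degree `2 g` which satisfy the conditions of Weil and of Mazur for the Hodge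
numbers `h` of weight `w` over the field with `q` elements: monic integral polynomials with constant
term `(q ^ w) ^ g`, all of whose complex roots have absolute value `q ^ (w / 2)` (`weilPolys`), and
whose Newton polygon with respect to `q` lies above the Hodge polygon: the coefficient of
`X ^ (2 g - k)` is divisible by `q ^ HP(k)` for `k ≤ g` (by the functional equation this is then true
for all `k`). -/
def hodgeWeilPolys (q w g : ℕ) (h : ℕ → ℕ) : Set ℤ[X] :=
  {f ∈ weilPolys (q ^ w) g | ∀ k ≤ g, ((q : ℤ) ^ hodgePolygon w h k) ∣ f.coeff (2 * g - k)}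

/-- `∏_{k = 1}^g √q ^ (w k - 2 HP(k))`. -/
noncomputable def hodgeSize (q w g : ℕ) (h : ℕ → ℕ) : ℝ :=
  ∏ k ∈ Finset.Icc 1 g, Real.sqrt q ^ (w * k - 2 * hodgePolygon w h k)

end Pool.Agent.T2h14.HT
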