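import Mathlib
import Pool.Agent.N578.LB.Main
import Pool.Agent.W484.TB.Pair
import Pool.Agent.T2h14.PW.Expl
import Pool.Agent.T2h14.HT.Def

/-!
# Weil polynomials of Hodge type: statements

Each `V_XXX : Prop` is proved in a file `Pool/Agent/T2h14/HT/XXX.lean` as
`theorem xxx : V_XXX` (with hypotheses other `V_YYY` if the proof says so).

Setting: `Q = q ^ w`; Weil polynomials `f` of degree `2 g` (`weilPolys (q ^ w) g`) are
`f = weil (q ^ w) H`, `H = mkPoly g x` monic of degree `g`, `x_k` the coefficient of `X ^ k`; `e k` are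
exponents, `q ^ (e k)` should divide the coefficient of `X ^ (2 g - k)` of `f`, `k ≤ g`; equivalently
(`V_DIV`) the coefficient of `X ^ (g - k)` of `H`.
-/

set_option autoImplicit false

namespace Pool.Agent.T2h14.HT

open Polynomial Pool.Agent.W521.Frob Pool.Agent.W521.Descent Pool.Agent.W521.Density
  Pool.Agent.W521.Count

/-- The Weil `q ^ w`-polynomials `f` of degree `2 g` such that `q ^ (e k)` divides the coefficient of
`X ^ (2 g - k)` for all `k ≤ g`. -/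
def latticeWeil (q w g : ℕ) (e : ℕ → ℕ) : Set ℤ[X] :=
  {f ∈ weilPolys (q ^ w) g | ∀ k ≤ g, ((q : ℤ) ^ e k) ∣ f.coeff (2 * g - k)}

/-- The conditions on the exponents: `e 0 = 0`, `2 e k + m ≤ w k` for `1 ≤ k ≤ g`,
`e (k + 2) ≤ e k + w` for `k + 2 ≤ g`. -/
structure Expo (w g m : ℕ) (e : ℕ → ℕ) : Prop where
  pos : 0 < g
  mpos : 0 < m
  zero : e 0 = 0
  half : ∀ k, 1 ≤ k → k ≤ g → 2 * e k + m ≤ w * k
  step : ∀ k, k + 2 ≤ g → e (k + 2) ≤ e k + w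

/-- The order of magnitude of the number of these polynomials:
`∏_{k = 1}^g √q ^ (w k - 2 e k)`. -/
noncomputable def size (q w g : ℕ) (e : ℕ → ℕ) : ℝ :=
  ∏ k ∈ Finset.Icc 1 g, Real.sqrt q ^ (w * k - 2 * e k)

/-- the rate `q ^ (-m / 6) log q` -/
noncomputable def rt (q m : ℕ) : ℝ := Real.log q * (q : ℝ) ^ (-((m : ℝ) / 6))

/-! ### The Hodge polygon -/

/-- HPA. Proof. Let `c p = ∑_{p' < p} h p'`. If `2 p > w`, `p ≤ w` then by symmetry
`∑_{p ≤ p' ≤ w} h p' = ∑_{p' ≤ w - p} h p' ≤ c p`, so `2 c p ≥ 2 g` and `k - c p = 0`. Let `p₀` be the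
`p` of `level`, `2 p₀ + m ≤ w`. The term of `p ≤ w / 2` is at most `k`, and at most `k - 1` if `p > p₀`
(then `c p ≥ h p₀ ≥ 1`). So `HP k ≤ p₀ k + (w / 2 - p₀) (k - 1)` and
`2 HP k + m ≤ 2 (w / 2) (k - 1) + 2 p₀ + m ≤ w k`. -/
def V_HPA : Prop := ∀ (w g m : ℕ) (h : ℕ → ℕ), HodgeNumbers w g m h → 0 < m → 0 < g →
  Expo w g m (hodgePolygon w h)

/-! ### Divisibility -/

/-- CF. Proof. `(X ^ 2 + C Q) ^ n * X ^ (g - n)` has the coefficient `choose n i * Q ^ i` at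
`g + n - 2 i` (`i ≤ n`), and no others: `(X ^ 2 + C Q) ^ n = expand 2 ((X + C Q) ^ n)`,
`Polynomial.coeff_X_add_C_pow`, `Polynomial.coeff_mul_X_pow'`, `Polynomial.coeff_expand`. With
`2 g - k = g + n - 2 i` we get `n = g - k + 2 i ≤ g`. -/
def V_CF : Prop := ∀ (Q g : ℕ) (H : ℤ[X]), H.natDegree = g → ∀ k ≤ g,
  (weil Q H).coeff (2 * g - k) = ∑ i ∈ Finset.range (k / 2 + 1),
    (((g - k + 2 * i).choose i : ℕ) : ℤ) * (Q : ℤ) ^ i * H.coeff (g - k + 2 * i)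

/-- DIV (from `V_CF`). Proof. Put `Q = q ^ w` in `V_CF`. The term of `i` has
`H.coeff (g - (k - 2 i))` and `Q ^ i = q ^ (w i)`, and `e k ≤ e (k - 2 i) + w i` by `step`. So `<=` is
clear, and `=>` follows by strong induction on `k`: the terms with `i ≥ 1` are divisible by
`q ^ (e k)`, and the term `i = 0` is `H.coeff (g - k)`. -/
def V_DIV : Prop := ∀ (q w g : ℕ) (e : ℕ → ℕ), (∀ k, k + 2 ≤ g → e (k + 2) ≤ e k + w) →
  ∀ H : ℤ[X], H.natDegree = g →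
    ((∀ k ≤ g, ((q : ℤ) ^ e k) ∣ (weil (q ^ w) H).coeff (2 * g - k)) ↔
      ∀ k ≤ g, ((q : ℤ) ^ e k) ∣ H.coeff (g - k))

/-! ### The lower bound for the number of polynomials -/

/-- INT. Multiples of `n` in an interval. Proof. `T = Finset.Icc ⌈(d - r) / n⌉ ⌊(d + r) / n⌋`, its
cardinality is at least `2 r / n - 1 ≥ r / n`. -/
def V_INT : Prop := ∀ (n : ℕ) (d : ℤ) (r : ℝ), 0 < n → (n : ℝ) ≤ r →
  ∃ T : Finset ℤ, (∀ y ∈ T, |(((n : ℤ) * y - d : ℤ) : ℝ)| ≤ r) ∧ r / n ≤ T.card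

/-- LOA (from `V_DIV`, `V_INT`). Proof. As `ordinary_lower` in `Pool/Agent/W521/Count.lean`, without the
condition on `E z0`. For `k : Fin g` (the coefficient `X ^ k` of `H`) let `T k` be the set of `V_INT`
for `n = q ^ e (g - k)`, `d = (dick (q ^ w) g).coeff k`, `r = √(q ^ w) ^ (g - k) / 2 ^ g`. For
`y ∈ Fintype.piFinset T` put `x k = q ^ e (g - k) * y k`, and `F y = weil (q ^ w) (mkPoly g x)`. Then
`F y ∈ weilPolys (q ^ w) g` by `mem_weilPolys` and `real_roots`, the divisibility holds by `V_DIV`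
(for `k = 0` because `e 0 = 0`), and `F` is injective. The product over `k : Fin g` is the product over
`j = g - k` in `Finset.Icc 1 g`; `√(q ^ w) ^ j = √q ^ (w j)`, `q ^ e j = √q ^ (2 e j)`. -/
def V_LOA : Prop := ∀ (q w g m : ℕ) (e : ℕ → ℕ), 0 < q → Expo w g m e →
  (2 : ℝ) ^ g ≤ Real.sqrt q ^ m →
  size q w g e ≤ 2 ^ (g ^ 2) * ((latticeWeil q w g e).ncard : ℝ)

/-- LOB (from `V_LOA`, `V_DIV`). Proof. If `2 ^ g ≤ √q ^ m` use `V_LOA`. Otherwise `√q ≤ √q ^ m < 2 ^ g`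
as `√q ≥ 1`, so `size ≤ (2 ^ g) ^ (∑ (w k - 2 e k))`, and `latticeWeil` is finite
(`finite_weilPolys`) and not empty: it contains `weil (q ^ w) (X ^ g)` (`mem_weilPolys`, the roots of
`X ^ g` are `0`; `V_DIV`: the coefficients of `X ^ g` at `g - k` are zero for `1 ≤ k ≤ g`, and
`e 0 = 0`). -/
def V_LOB : Prop := ∀ (w g m : ℕ) (e : ℕ → ℕ), Expo w g m e → ∃ c : ℝ, 0 < c ∧ ∀ q : ℕ, 0 < q →
  (latticeWeil q w g e).Finite ∧ c * size q w g e ≤ ((latticeWeil q w g e).ncard : ℝ)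

/-! ### The box -/

section

variable {I : Type} (g : I → ℕ) (e : I → ℕ → ℕ)

/-- the spacing of the lattice in the coordinate `s` -/
def nn (q : ℕ) (s : Σ i, Fin (g i)) : ℕ := q ^ e s.1 (g s.1 - s.2)

/-- the half side of the box in the coordinate `s` -/
noncomputable def bb (q w : ℕ) (s : Σ i, Fin (g i)) : ℕ := bd (q ^ w) (g s.1) s.2 / nn g e q s

/-- the point of the lattice with coordinates `y` -/
def pt (q : ℕ) (y : (Σ i, Fin (g i)) → ℤ) : (Σ i, Fin (g i)) → ℤ := fun s => (nn g e q s : ℤ) * y s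

/-- the box of the `y` with `|y s| ≤ bb s` -/
noncomputable def ybox [Fintype I] [DecidableEq I] (q w : ℕ) : Finset ((Σ i, Fin (g i)) → ℤ) :=
  Fintype.piFinset fun s => Finset.Icc (-(bb g e q w s : ℤ)) (bb g e q w s)

end

/-- BOX (from `V_DIV`). Proof. By `exists_point` `f i = weil (q ^ w) (mkPoly (g i) (x i))` with
`|x i k| ≤ bd (q ^ w) (g i) k`, and by `V_DIV` (and `mkPoly_coeff`, `mkPoly_natDegree`) `x i k` is divisible
by `q ^ e i (g i - k)`. -/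
def V_BOX : Prop := ∀ {I : Type} [Fintype I] [DecidableEq I] (g : I → ℕ) (w m : ℕ)
  (e : I → ℕ → ℕ), (∀ i, Expo w (g i) m (e i)) → ∀ q : ℕ, 0 < q → ∀ f : I → ℤ[X],
    (∀ i, f i ∈ latticeWeil q w (g i) (e i)) →
    ∃ y ∈ ybox g e q w, ∀ i, f i = weil (q ^ w) (polys g (pt g e q y) i)

/-- LEN. Proof. `bb = ⌊⌊B⌋ / n⌋ = ⌊B / n⌋` with `B = 4 ^ g √(q ^ w) ^ (g - k)`, `n = q ^ e (g - k)`
(`Nat.floor_div_natCast`), and `B / n = 4 ^ g √q ^ (w j - 2 e j)`, `j = g - k`, which is at least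
`√q ^ m` and at least `1`; and `x ≤ 2 ⌊x⌋ + 1 ≤ 3 x` for `x ≥ 1`. -/
def V_LEN : Prop := ∀ {I : Type} (g : I → ℕ) (w m : ℕ) (e : I → ℕ → ℕ),
  (∀ i, Expo w (g i) m (e i)) → ∀ q : ℕ, 0 < q → ∀ s : Σ i, Fin (g i),
    (Real.sqrt q ^ m ≤ 2 * (bb g e q w s : ℝ) + 1) ∧
    (2 * (bb g e q w s : ℝ) + 1 ≤ 3 * 4 ^ g s.1 *
      Real.sqrt q ^ (w * (g s.1 - s.2) - 2 * e s.1 (g s.1 - s.2)))

/-- PRD (from `V_LEN`). Proof. `Fintype.prod_sigma`, and the product over `k : Fin (g i)` is the product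
over `j = g i - k` in `Finset.Icc 1 (g i)`. -/
def V_PRD : Prop := ∀ {I : Type} [Fintype I] (g : I → ℕ) (w m : ℕ) (e : I → ℕ → ℕ),
  (∀ i, Expo w (g i) m (e i)) → ∀ q : ℕ, 0 < q →
    ∏ s, (2 * (bb g e q w s : ℝ) + 1) ≤
      (∏ i, ((3 * 4 ^ g i) ^ g i : ℝ)) * ∏ i, size q w (g i) (e i)

/-- BDA (from `V_LEN`). Proof. Apply the first part of `InAllLattices` with `q ^ w` in place of `q`,
`B = √q ^ m` (`B ≥ 2` as `q ≥ 4`, `m ≥ 1`), `A` the diagonal matrix of the `nn s`, `a = 0`,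
`lo s = -bb s`, `N s = 2 bb s + 1` (`≥ B` by `V_LEN`). The prime factors of
`det A = ∏ nn s`, a power of `q`, are at most one, and `1 ≤ B ^ (1 / 4)`. `hpoly`, `fpoly` are `polys`, `weil`
up to unfolding, `a + A.mulVec y = pt y`. Finally `log B * B ^ (-1 / 3) = (m / 2) rt q m`. -/
def V_BDA : Prop := ∀ {I : Type} [Fintype I] [DecidableEq I] (g : I → ℕ) (w m : ℕ)
  (e : I → ℕ → ℕ) (P : ℕ → (I → ℤ[X]) → Prop), (∀ i, Expo w (g i) m (e i)) →
    Pool.Agent.N578.LB.InAllLattices g P → ∃ C : ℝ, 0 < C ∧ ∀ q : ℕ, IsPrimePow q → 4 ≤ q →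
      ({y : (Σ i, Fin (g i)) → ℤ | y ∈ ybox g e q w ∧
        (∀ i, ¬ ((q ^ w : ℕ) : ℤ) ∣ (polys g (pt g e q y) i).nextCoeff ^ 2) ∧
        ¬ P (q ^ w) (fun i => weil (q ^ w) (polys g (pt g e q y) i))}.ncard : ℝ) ≤
        C * rt q m * ∏ s, (2 * (bb g e q w s : ℝ) + 1)

/-- SQC. Proof. By `Pool.Agent.N578.LB.sq_dvd` for `q ^ w` (a prime power if `w > 0`; for `w = 0` take
`m = 1`) there is `M` with `q ^ w ≤ M ^ 2` and `q ^ w ∣ t ^ 2 → M ∣ t`. For the `y` in the set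
`M ∣ n y`, and `|n y| ≤ n (b / n) ≤ b ≤ K √(q ^ w) ≤ K M`; so `n y / M` has absolute value at most `K`,
and it determines `y`. -/
def V_SQC : Prop := ∀ (q w n b K : ℕ), IsPrimePow q → 0 < n → (b : ℝ) ≤ K * Real.sqrt (q ^ w : ℕ) →
  {y : ℤ | |y| ≤ ((b / n : ℕ) : ℤ) ∧ ((q ^ w : ℕ) : ℤ) ∣ ((n : ℤ) * y) ^ 2}.ncard ≤ 2 * K + 1

/-- BDB (from `V_SQC`, `V_LEN`). Proof. The next coefficient of `polys g x i` is `x ⟨i, g i - 1⟩` (see the end
of `Pool/Agent/N578/LB/Main.lean`). So the set is contained in the product of the `Icc`'s, where the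
factor of `s = ⟨i, g i - 1⟩` is replaced by the set of `V_SQC` with `n = nn s`, `b = bd (q ^ w) (g i) (g i - 1)`,
`K = 4 ^ g i` (`bd_le`), which has at most `2 K + 1 ≤ (2 K + 1) √q ^ (-m) (2 bb s + 1)` elements by
`V_LEN`. -/
def V_BDB : Prop := ∀ {I : Type} [Fintype I] [DecidableEq I] (g : I → ℕ) (w m : ℕ)
  (e : I → ℕ → ℕ), (∀ i, Expo w (g i) m (e i)) → ∀ i : I, ∀ q : ℕ, IsPrimePow q →
    ({y : (Σ i, Fin (g i)) → ℤ | y ∈ ybox g e q w ∧
      ((q ^ w : ℕ) : ℤ) ∣ (polys g (pt g e q y) i).nextCoeff ^ 2}.ncard : ℝ) * Real.sqrt q ^ m ≤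
      (2 * 4 ^ g i + 1) * ∏ s, (2 * (bb g e q w s : ℝ) + 1)

/-- BAD (from `V_BOX`, `V_PRD`, `V_BDA`, `V_BDB`). Proof. The map `y ↦ (weil (q ^ w) (polys g (pt y) i))_i`
maps the `y ∈ ybox` for which `P` fails onto a set which contains the set in question (`V_BOX`). If
`q ≥ 4` the `y` are in the set of `V_BDA` or in the set of `V_BDB` for some `i`, and
`(√q ^ m)⁻¹ ≤ C rt q m` for `q ≥ 2`. If `q < 4` the number of all `y ∈ ybox` is `∏ (2 bb s + 1)`, and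
`rt q m` has a positive lower bound for `q = 2, 3`. Then use `V_PRD`. -/
def V_BAD : Prop := ∀ {I : Type} [Fintype I] [DecidableEq I] (g : I → ℕ) (w m : ℕ)
  (e : I → ℕ → ℕ) (P : ℕ → (I → ℤ[X]) → Prop), (∀ i, Expo w (g i) m (e i)) →
    Pool.Agent.N578.LB.InAllLattices g P → ∃ C : ℝ, 0 < C ∧ ∀ q : ℕ, IsPrimePow q →
      ({f : I → ℤ[X] | (∀ i, f i ∈ latticeWeil q w (g i) (e i)) ∧ ¬ P (q ^ w) f}.ncard : ℝ) ≤
        C * rt q m * ∏ i, size q w (g i) (e i)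

/-- UPB (from `V_BOX`, `V_PRD`). Proof. By `V_BOX` for `I = Unit` the number is at most the cardinality
`∏ (2 bb s + 1)` of `ybox`, then `V_PRD`. -/
def V_UPB : Prop := ∀ (w g m : ℕ) (e : ℕ → ℕ), Expo w g m e → ∀ q : ℕ, 0 < q →
  ((latticeWeil q w g e).ncard : ℝ) ≤ (3 * 4 ^ g) ^ g * size q w g e

/-! ### Relations -/

/-- NRA. Proof. As `Pool.Agent.W484.TB.exactPair_over` in `Pool/Agent/W484/TB/Pair.lean` (by
`no_relation_rank_over`); `RankLE` is the same as `RankLEOver`. -/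
def V_NRA : Prop := ∀ {I : Type} [Finite I] (g : I → ℕ) (E : IntermediateField ℚ ℂ)
  [FiniteDimensional ℚ E] (Q : ℕ), Q ≠ 0 → ∀ r : ℕ, (∀ i, r < g i) →
    ∀ x : (Σ i, Fin (g i)) → ℤ,
      Pool.Agent.W484.TB.GoodU (Pool.Agent.W484.TB.splitPrimes E) g Q x →
      Pool.Agent.T2h14.NR.Stm.NoRelations E Q r (fun i => weil Q (polys g x i))

/-- NRB. Proof. Let `z` be a common root; `z ≠ 0`, put `θ = z + Q / z`. By `aeval_weil` `θ` is a root of
the monic polynomials `h = polys g x i` and `h' = polys g x j`, which are irreducible over `ℚ`, so both are the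
minimal polynomial of `θ` and `h = h'`. The flip pattern for `i` and the prime `l` gives
`T i`, `T j` with `∏_{t ∈ T i} (X - t) = ∏_{t ∈ T j} (X - t)`, so `T i = T j` (roots), and `t₀ ∈ T j`, so
`t₀ ^ 2 - 4 Q` is a square. Contradiction. -/
def V_NRB : Prop := ∀ {I : Type} (U : Set ℕ) (g : I → ℕ) (Q : ℕ), Q ≠ 0 → (∀ i, 0 < g i) →
  ∀ x : (Σ i, Fin (g i)) → ℤ, Pool.Agent.W484.TB.GoodU U g Q x → ∀ i j : I, i ≠ j → ∀ z : ℂ,
    aeval z (weil Q (polys g x i)) = 0 → aeval z (weil Q (polys g x j)) ≠ 0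

/-- NRC (from `V_NRA`, `V_NRB`). Proof. `Pool.Agent.T2h14.PW.noRelations_of` with `M = w`, `e = 1`,
`F = f`. -/
def V_NRC : Prop := ∀ {I : Type} [Finite I] (g : I → ℕ) (E : IntermediateField ℚ ℂ)
  [FiniteDimensional ℚ E] (q w : ℕ), q ≠ 0 → 0 < w → ∀ r : ℕ, (∀ i, r < g i) →
    ∀ x : (Σ i, Fin (g i)) → ℤ,
      Pool.Agent.W484.TB.GoodU (Pool.Agent.W484.TB.splitPrimes E) g (q ^ w) x →
      (∀ i, weil (q ^ w) (polys g x i) ∈ weilPolys (q ^ w) (g i)) →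
      Pool.Agent.T2h14.PW.Stm.NoRelations E q r (fun _ => w)
        (fun i => weil (q ^ w) (polys g x i))

/-- FIN (from `V_HPA`, `V_LOB`, `V_BAD`, `V_UPB`, `V_NRC`, `Pool.Agent.N578.LB.inAllLattices`). -/
def V_FIN : Prop := ∀ {I : Type} [Fintype I] (w m r : ℕ) (g : I → ℕ) (h : I → ℕ → ℕ),
  0 < m → (∀ i, r < g i) → (∀ i, HodgeNumbers w (g i) m (h i)) →
  ∀ (E : IntermediateField ℚ ℂ) [FiniteDimensional ℚ E], ∃ C c : ℝ, 0 < c ∧ ∀ q : ℕ,
    IsPrimePow q →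
    (∀ i, (latticeWeil q w (g i) (hodgePolygon w (h i))).Finite ∧
      c * size q w (g i) (hodgePolygon w (h i)) ≤
        (latticeWeil q w (g i) (hodgePolygon w (h i))).ncard ∧
      ((latticeWeil q w (g i) (hodgePolygon w (h i))).ncard : ℝ) ≤
        C * size q w (g i) (hodgePolygon w (h i))) ∧
    ({f : I → ℤ[X] | (∀ i, f i ∈ latticeWeil q w (g i) (hodgePolygon w (h i))) ∧
      ¬ Pool.Agent.T2h14.PW.Stm.NoRelations E q r (fun _ => w) f}.ncard : ℝ) ≤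
      C * rt q m * ∏ i, ((latticeWeil q w (g i) (hodgePolygon w (h i))).ncard : ℝ)

end Pool.Agent.T2h14.HT
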