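import Mathlib
import Pool.Agent.T2h14.HT.Stm

/-!
# Weil polynomials of Hodge type, arbitrary weights `w i`: statements

The generalisation of `Stm.lean` from one weight `w` to weights `w i`, `i : I`; `Q i = q ^ w i`. All
tasks are adaptations of files of the library (one `q` is replaced by `Q i`) or of the files of part one.
-/

set_option autoImplicit false

namespace Pool.Agent.T2h14.HT

open Polynomial Pool.Agent.W521.Frob Pool.Agent.W521.Descent Pool.Agent.W521.Density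
  Pool.Agent.W521.Count Pool.Agent.W484.TB

/-- The factorisation pattern: as `Pool.Agent.W521.Frob.FlipPattern`, with `Q i` in place of `q`. -/
def FlipPatternM {I : Type} (Q : I → ℕ) (h : I → ℤ[X]) (i₀ : I) (l : ℕ) : Prop :=
  ∃ (T : I → Finset (ZMod l)) (t₀ : ZMod l), t₀ ∈ T i₀ ∧
    ¬ IsSquare (t₀ ^ 2 - 4 * (Q i₀ : ZMod l)) ∧
    (∀ i, (h i).map (Int.castRingHom (ZMod l)) = ∏ t ∈ T i, (X - C t)) ∧
    ∀ i, ∀ t ∈ T i, ¬ (i = i₀ ∧ t = t₀) →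
      IsSquare (t ^ 2 - 4 * (Q i : ZMod l)) ∧ t ^ 2 - 4 * (Q i : ZMod l) ≠ 0

/-- The good points, as `Pool.Agent.W484.TB.GoodU`. -/
def GoodM (U : Set ℕ) {I : Type} (g : I → ℕ) (Q : I → ℕ) (x : (Σ i, Fin (g i)) → ℤ) : Prop :=
  (∀ i, ∃ l : ℕ, l.Prime ∧ l ≠ 2 ∧ (∀ j, ¬ l ∣ Q j) ∧ l ∈ U ∧ FlipPatternM Q (polys g x) i l) ∧
    (∀ i, Irreducible ((polys g x i).map (Int.castRingHom ℚ))) ∧
    ∀ i, ¬ (Q i : ℤ) ∣ (polys g x i).nextCoeff ^ 2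

/-- There is an automorphism, trivial on `E`, which exchanges the roots `α` and `Q i / α` of `f i` and
fixes all other roots of `f i` and all roots of the other `f i'`. -/
def FlippableM {I : Type} (Q : I → ℕ) (h : I → ℤ[X]) (E : Type) [Field E] {L : Type} [Field L]
    [Algebra ℚ L] [Algebra E L] (i : I) (α : L) : Prop :=
  ∃ σ : L ≃ₐ[ℚ] L, (∀ y : E, σ (algebraMap E L y) = algebraMap E L y) ∧ σ α = Q i / α ∧
    α ≠ Q i / α ∧ ∀ i', ∀ β : L, aeval β (weil (Q i') (h i')) = 0 →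
      (i' = i → β ≠ α ∧ β ≠ Q i / α) → σ β = β

/-! ### Relations -/

/-- FLM. Proof. Copy `exists_flip_frob` in `Pool/Agent/W484/TB/Flip.lean` with `q` replaced by `Q i`
resp. `Q i₀`. The last clause is stronger (all roots of the `f i` with `i ≠ i₀` are fixed): in the old proof
`hcase` is trivial if `i ≠ i₀`. (`hint`, `hφ0`, ... get the index `i`.) -/
def V_FLM : Prop := ∀ {I : Type} (Q : I → ℕ) (h : I → ℤ[X]), (∀ i, (h i).Monic) →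
  ∀ (L : Type) [Field L] [NumberField L] [IsGalois ℚ L] (i₀ : I),
    ((h i₀).map (algebraMap ℤ L)).Splits →
    (∀ θ : L, aeval θ (h i₀) = 0 → ∃ α : L, α ^ 2 + Q i₀ = θ * α) →
    ∀ l : ℕ, l.Prime → l ≠ 2 → (∀ i, ¬ l ∣ Q i) → FlipPatternM Q h i₀ l →
    ∃ (σ : Gal(L/ℚ)) (α : L), IsFr L l σ ∧ aeval α (weil (Q i₀) (h i₀)) = 0 ∧
      σ α = Q i₀ / α ∧ α ≠ Q i₀ / α ∧
      ∀ i, ∀ β : L, aeval β (weil (Q i) (h i)) = 0 → (i = i₀ → β ≠ α ∧ β ≠ Q i₀ / α) → σ β = β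

/-- FOM (from `V_FLM`). Proof. Copy `all_flippable_over` in `Pool/Agent/W484/TB/Rel.lean`. The lemmas
`splits_h`, `quad_L`, `exists_tau` about one polynomial are applied to the family `fun _ : Unit => h i`. -/
def V_FOM : Prop := ∀ {I : Type} (Q : I → ℕ) (h : I → ℤ[X]), (∀ i, Q i ≠ 0) →
  (∀ i, (h i).Monic) → ∀ (L : Type) [Field L] [NumberField L] [IsGalois ℚ L] (j : L →+* ℂ),
    (∀ i, ∀ z : ℂ, aeval z (weil (Q i) (h i)) = 0 → ∃ x : L, j x = z) →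
    ∀ (E : Type) [Field E] [NumberField E] [IsGalois ℚ E] [Algebra E L] (i : I),
      Irreducible ((h i).map (Int.castRingHom ℚ)) → ∀ l : ℕ, l.Prime → l ≠ 2 → (∀ i, ¬ l ∣ Q i) →
      TrivFrob E l → FlipPatternM Q h i l → ∀ α : L, aeval α (weil (Q i) (h i)) = 0 →
      FlippableM Q h E i α

/-- NSM. Proof. Copy `no_small_rank_over` in `Pool/Agent/W484/TB/RankOver.lean` (the roots of one
polynomial; `splits_h` etc. with the family `fun _ : Unit => h i₀`). -/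
def V_NSM : Prop := ∀ {I : Type} (Q : I → ℕ) (h : I → ℤ[X]), (∀ i, Q i ≠ 0) →
  (∀ i, (h i).Monic) → ∀ {L : Type} [Field L] [NumberField L] [IsGalois ℚ L] (j : L →+* ℂ),
    (∀ i, ∀ z : ℂ, aeval z (weil (Q i) (h i)) = 0 → ∃ x : L, j x = z) →
    ∀ {E : Type} [Field E] [Algebra E L] (i₀ : I), Irreducible ((h i₀).map (Int.castRingHom ℚ)) →
      (∀ α : L, aeval α (weil (Q i₀) (h i₀)) = 0 → FlippableM Q h E i₀ α) →
      ¬ (Q i₀ : ℤ) ∣ (h i₀).nextCoeff ^ 2 → ∀ r : ℕ, r < (h i₀).natDegree →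
      ∀ u : Fin r → ℂ, (∀ j, u j ≠ 0) →
      (∀ y : L, aeval y (weil (Q i₀) (h i₀)) = 0 → ∃ (M : ℕ) (e : E) (m : Fin r → ℤ), 0 < M ∧
        e ≠ 0 ∧ (j y ^ 2) ^ M = j (algebraMap E L e) * ∏ t, u t ^ m t) → False

/-- NRM (from `V_FOM`, `V_NSM`). Proof. Copy `no_relation_rank_over` in
`Pool/Agent/W484/TB/RankOver.lean`, with `Q i = q ^ w i`. The relation has the base `q`, which is fixed by all
automorphisms; `hnoL : ∀ k l, i k = i l → x l ≠ Q (i k) / x k`. In the step `hprod` (the flip `σ₀` of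
`x k₀`) the `x k` with `i k ≠ i k₀` are fixed by `σ₀`: take the filter of the `k` with `i k = i k₀` and
`x k = x k₀`; (if `x k = x k₀` and `i k ≠ i k₀` then `σ₀ (x k₀) = x k₀`, contradiction). -/
def V_NRM : Prop := ∀ {I : Type} [Finite I] (q : ℕ) (w : I → ℕ) (h : I → ℤ[X]), q ≠ 0 →
  (∀ i, (h i).Monic) → (∀ i, Irreducible ((h i).map (Int.castRingHom ℚ))) →
  ∀ (E : Type) [Field E] [NumberField E] [IsGalois ℚ E] (e₀ : E →+* ℂ),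
    (∀ i, ∃ l : ℕ, l.Prime ∧ l ≠ 2 ∧ (∀ j, ¬ l ∣ q ^ w j) ∧ TrivFrob E l ∧
      FlipPatternM (fun i => q ^ w i) h i l) →
    (∀ i, ¬ ((q ^ w i : ℕ) : ℤ) ∣ (h i).nextCoeff ^ 2) → ∀ r : ℕ,
    (∀ i, r < (h i).natDegree) → ∀ χ : ℚ[X], χ ≠ 0 → ∀ u : Fin r → ℂ, (∀ t, u t ≠ 0) →
    (∀ ρ : ℂ, aeval ρ χ = 0 → ∃ (N : ℕ) (e : E) (m : Fin r → ℤ), 0 < N ∧ e ≠ 0 ∧
      ρ ^ N = e₀ e * ∏ t, u t ^ m t) →
    ∀ ρ : ℂ, aeval ρ χ = 0 → ρ ≠ 0 → ∀ s : ℕ, 0 < s → ∀ {n : ℕ}, 0 < n → ∀ (c : ℤ) (N : ℕ),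
    0 < N → ∀ (i : Fin n → I) (z : Fin n → ℂ),
    (∀ k, aeval (z k) (weil (q ^ w (i k)) (h (i k))) = 0) →
    ((∏ k, z k) ^ s * ρ) ^ N = (((q : ℂ) ^ s) ^ c) ^ N →
    (∀ k l, k ≠ l → i k = i l → z k * z l ≠ (q : ℂ) ^ w (i k)) → False

/-- RLM (from `V_NRM`). Proof. As `exactPair_over` in `Pool/Agent/W484/TB/Pair.lean` (the first half:
`E` is replaced by its Galois closure `gal E`, `splitPrimes`), by contradiction. -/
def V_RLM : Prop := ∀ {I : Type} [Finite I] (g : I → ℕ) (E : IntermediateField ℚ ℂ)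
  [FiniteDimensional ℚ E] (q : ℕ) (w : I → ℕ), q ≠ 0 → ∀ r : ℕ, (∀ i, r < g i) →
    ∀ x : (Σ i, Fin (g i)) → ℤ, GoodM (splitPrimes E) g (fun i => q ^ w i) x →
      Pool.Agent.T2h14.PW.Stm.NoRelations E q r w (fun i => weil (q ^ w i) (polys g x i))

/-! ### The events and the sieve -/

/-- EVM. Proof. Copy `flipEvent`, `flipEvent_lower`, `flipPattern_of_mem` at the end of
`Pool/Agent/W521/Density.lean`: take
`Ω = blocks g (fun i => if i = i₀ then flipSet l (Q i) (g i) else splitSet l (Q i) (g i))`. -/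
def V_EVM : Prop := ∀ {I : Type} [Fintype I] [DecidableEq I] (g : I → ℕ), (∀ i, 0 < g i) →
  ∀ (Q : I → ℕ) (i₀ : I) (l : ℕ) [Fact l.Prime], (∀ i, 4 * g i + 12 ≤ l) → (∀ i, ¬ l ∣ Q i) →
    ∃ Ω : Finset ((Σ i, Fin (g i)) → ZMod l),
      l ^ (∑ i, g i) ≤ (∏ i, 4 ^ g i * (g i).factorial) * Ω.card ∧
      ∀ x : (Σ i, Fin (g i)) → ℤ, (fun s => ((x s : ℤ) : ZMod l)) ∈ Ω →
        FlipPatternM Q (polys g x) i₀ l

/-- LTM (from `V_EVM`). Proof. Copy `bad_lattice` in `Pool/Agent/N578/LB/Main.lean`, with `Q i = q ^ w i`: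
the sets `evF g q i l` are replaced by the sets of `V_EVM` (chosen, `∅` if `l` is not prime or the
conditions on `l` fail), a prime `l` not dividing `D = q * |det A|` divides no `q ^ w i`. -/
def V_LTM : Prop := ∀ {I : Type} [Fintype I] [DecidableEq I] (g w : I → ℕ) (U : Set ℕ),
  Pool.Agent.W484.TB.Dense U → (∀ i, 0 < g i) →
    ∃ C : ℝ, 0 < C ∧ ∀ q : ℕ, IsPrimePow q → ∀ B : ℝ, 2 ≤ B →
    ∀ A : Matrix (Σ i, Fin (g i)) (Σ i, Fin (g i)) ℤ, A.det ≠ 0 →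
    (A.det.natAbs.primeFactors.card : ℝ) ≤ B ^ (1 / 4 : ℝ) →
    ∀ (a lo : (Σ i, Fin (g i)) → ℤ) (N : (Σ i, Fin (g i)) → ℕ), (∀ s, B ≤ N s) →
    ({y : (Σ i, Fin (g i)) → ℤ | y ∈ Pool.Agent.W521.Turan.box lo N ∧
      (∀ i, ¬ ((q ^ w i : ℕ) : ℤ) ∣
        (polys g (Pool.Agent.N578.LB.aff A a y) i).nextCoeff ^ 2) ∧
      ¬ GoodM U g (fun i => q ^ w i) (Pool.Agent.N578.LB.aff A a y)}.ncard : ℝ) ≤
      C * (Real.log B * B ^ (-(1 / 3) : ℝ)) * ∏ s, (N s : ℝ)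

/-! ### The box -/

section

variable {I : Type} (g w : I → ℕ) (e : I → ℕ → ℕ)

/-- the half side of the box in the coordinate `s` -/
noncomputable def bbM (q : ℕ) (s : Σ i, Fin (g i)) : ℕ :=
  bd (q ^ w s.1) (g s.1) s.2 / nn g e q s

/-- the box of the `y` with `|y s| ≤ bbM s` -/
noncomputable def yboxM [Fintype I] [DecidableEq I] (q : ℕ) : Finset ((Σ i, Fin (g i)) → ℤ) :=
  Fintype.piFinset fun s => Finset.Icc (-(bbM g w e q s : ℤ)) (bbM g w e q s)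

end

/-- BXM (from `V_DIV`). Proof. As `V_BOX` (file `BOX.lean`). -/
def V_BXM : Prop := ∀ {I : Type} [Fintype I] [DecidableEq I] (g w : I → ℕ) (m : ℕ)
  (e : I → ℕ → ℕ), (∀ i, Expo (w i) (g i) m (e i)) → ∀ q : ℕ, 0 < q → ∀ f : I → ℤ[X],
    (∀ i, f i ∈ latticeWeil q (w i) (g i) (e i)) →
    ∃ y ∈ yboxM g w e q, ∀ i, f i = weil (q ^ w i) (polys g (pt g e q y) i)

/-- LNM (from `V_LEN`). Proof. `V_LEN` for the family with one member `fun _ : Unit => g s.1` and the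
weight `w s.1`, at `⟨(), s.2⟩` (`bbM g w e q s` is `bb` of this family by `rfl`). -/
def V_LNM : Prop := ∀ {I : Type} (g w : I → ℕ) (m : ℕ) (e : I → ℕ → ℕ),
  (∀ i, Expo (w i) (g i) m (e i)) → ∀ q : ℕ, 0 < q → ∀ s : Σ i, Fin (g i),
    (Real.sqrt q ^ m ≤ 2 * (bbM g w e q s : ℝ) + 1) ∧
    (2 * (bbM g w e q s : ℝ) + 1 ≤ 3 * 4 ^ g s.1 *
      Real.sqrt q ^ (w s.1 * (g s.1 - s.2) - 2 * e s.1 (g s.1 - s.2)))

/-- PDM (from `V_LNM`). Proof. As `V_PRD` (file `PRD.lean`). -/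
def V_PDM : Prop := ∀ {I : Type} [Fintype I] (g w : I → ℕ) (m : ℕ) (e : I → ℕ → ℕ),
  (∀ i, Expo (w i) (g i) m (e i)) → ∀ q : ℕ, 0 < q →
    ∏ s, (2 * (bbM g w e q s : ℝ) + 1) ≤
      (∏ i, ((3 * 4 ^ g i) ^ g i : ℝ)) * ∏ i, size q (w i) (g i) (e i)

/-- DAM (from `V_LTM`, `V_LNM`). Proof. As `V_BDA` (file `BDA.lean`), with `V_LTM` instead of
`InAllLattices`. -/
def V_DAM : Prop := ∀ {I : Type} [Fintype I] [DecidableEq I] (g w : I → ℕ) (m : ℕ)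
  (e : I → ℕ → ℕ) (U : Set ℕ), Pool.Agent.W484.TB.Dense U → (∀ i, Expo (w i) (g i) m (e i)) →
    ∃ C : ℝ, 0 < C ∧ ∀ q : ℕ, IsPrimePow q → 4 ≤ q →
      ({y : (Σ i, Fin (g i)) → ℤ | y ∈ yboxM g w e q ∧
        (∀ i, ¬ ((q ^ w i : ℕ) : ℤ) ∣ (polys g (pt g e q y) i).nextCoeff ^ 2) ∧
        ¬ GoodM U g (fun i => q ^ w i) (pt g e q y)}.ncard : ℝ) ≤
        C * rt q m * ∏ s, (2 * (bbM g w e q s : ℝ) + 1)

/-- DBM (from `V_SQC`, `V_LNM`). Proof. As `V_BDB` (file `BDB.lean`). -/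
def V_DBM : Prop := ∀ {I : Type} [Fintype I] [DecidableEq I] (g w : I → ℕ) (m : ℕ)
  (e : I → ℕ → ℕ), (∀ i, Expo (w i) (g i) m (e i)) → ∀ i : I, ∀ q : ℕ, IsPrimePow q →
    ({y : (Σ i, Fin (g i)) → ℤ | y ∈ yboxM g w e q ∧
      ((q ^ w i : ℕ) : ℤ) ∣ (polys g (pt g e q y) i).nextCoeff ^ 2}.ncard : ℝ) * Real.sqrt q ^ m ≤
      (2 * 4 ^ g i + 1) * ∏ s, (2 * (bbM g w e q s : ℝ) + 1)

/-- ADM (from `V_BXM`, `V_PDM`, `V_DAM`, `V_DBM`). Proof. As `V_BAD` (file `BAD.lean`). -/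
def V_ADM : Prop := ∀ {I : Type} [Fintype I] [DecidableEq I] (g w : I → ℕ) (m : ℕ)
  (e : I → ℕ → ℕ) (U : Set ℕ) (P : ℕ → (I → ℤ[X]) → Prop), Pool.Agent.W484.TB.Dense U →
    (∀ i, Expo (w i) (g i) m (e i)) →
    (∀ q : ℕ, IsPrimePow q → ∀ x : (Σ i, Fin (g i)) → ℤ,
      GoodM U g (fun i => q ^ w i) x → P q (fun i => weil (q ^ w i) (polys g x i))) →
    ∃ C : ℝ, 0 < C ∧ ∀ q : ℕ, IsPrimePow q →
      ({f : I → ℤ[X] | (∀ i, f i ∈ latticeWeil q (w i) (g i) (e i)) ∧ ¬ P q f}.ncard : ℝ) ≤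
        C * rt q m * ∏ i, size q (w i) (g i) (e i)

/-- FNM (from `V_HPA`, `V_LOB`, `V_ADM`, `V_UPB`, `V_RLM`; by helper14). -/
def V_FNM : Prop := ∀ {I : Type} [Fintype I] (w g : I → ℕ) (m r : ℕ) (h : I → ℕ → ℕ),
  0 < m → (∀ i, r < g i) → (∀ i, HodgeNumbers (w i) (g i) m (h i)) →
  ∀ (E : IntermediateField ℚ ℂ) [FiniteDimensional ℚ E], ∃ C c : ℝ, 0 < c ∧ ∀ q : ℕ,
    IsPrimePow q →
    (∀ i, (latticeWeil q (w i) (g i) (hodgePolygon (w i) (h i))).Finite ∧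
      c * size q (w i) (g i) (hodgePolygon (w i) (h i)) ≤
        (latticeWeil q (w i) (g i) (hodgePolygon (w i) (h i))).ncard ∧
      ((latticeWeil q (w i) (g i) (hodgePolygon (w i) (h i))).ncard : ℝ) ≤
        C * size q (w i) (g i) (hodgePolygon (w i) (h i))) ∧
    ({f : I → ℤ[X] | (∀ i, f i ∈ latticeWeil q (w i) (g i) (hodgePolygon (w i) (h i))) ∧
      ¬ Pool.Agent.T2h14.PW.Stm.NoRelations E q r w f}.ncard : ℝ) ≤
      C * rt q m * ∏ i, ((latticeWeil q (w i) (g i) (hodgePolygon (w i) (h i))).ncard : ℝ)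

end Pool.Agent.T2h14.HT
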