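import Mathlib
import Pool.Agent.T2h14.HT.Stm2

/-!
# BXM: the point of the box of a family of polynomials, for several weights
-/

set_option autoImplicit false

namespace Pool.Agent.T2h14.HT

open Polynomial Pool.Agent.W521.Frob Pool.Agent.W521.Descent Pool.Agent.W521.Density
  Pool.Agent.W521.Count

theorem bxm (hD : V_DIV) : V_BXM := by
  intro I _ _ g w m e he q hq f hf
  have h1 : ∀ i, ∃ x : Fin (g i) → ℤ, f i = weil (q ^ w i) (mkPoly (g i) x) ∧
      ∀ k : Fin (g i), |x k| ≤ bd (q ^ w i) (g i) k :=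
    fun i => exists_point (pow_pos hq (w i)).ne' (hf i).1
  choose x hx hb using h1
  have hdiv : ∀ i (k : Fin (g i)), ((q : ℤ) ^ e i (g i - k)) ∣ x i k := by
    intro i k
    have h0 : ∀ k ≤ g i,
        ((q : ℤ) ^ e i k) ∣ (weil (q ^ w i) (mkPoly (g i) (x i))).coeff (2 * g i - k) := by
      rw [← hx i]
      exact (hf i).2
    have h2 := (hD q (w i) (g i) (e i) (he i).step (mkPoly (g i) (x i)) (mkPoly_natDegree _ _)).1 h0
    have h3 := h2 (g i - k) (Nat.sub_le _ _)
    rw [Nat.sub_sub_self k.2.le] at h3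
    rwa [mkPoly_coeff] at h3
  choose y hy using hdiv
  refine ⟨fun s => y s.1 s.2, ?_, fun i => ?_⟩
  · unfold yboxM
    rw [Fintype.mem_piFinset]
    rintro ⟨i, k⟩
    rw [Finset.mem_Icc, ← abs_le]
    show |y i k| ≤ ((bd (q ^ w i) (g i) k / q ^ e i (g i - k) : ℕ) : ℤ)
    have h2 := hb i k
    rw [hy i k, abs_mul, abs_of_pos (by positivity : (0 : ℤ) < (q : ℤ) ^ e i (g i - k))] at h2
    rw [← Int.natCast_natAbs] at h2 ⊢
    have h3 : q ^ e i (g i - k) * (y i k).natAbs ≤ bd (q ^ w i) (g i) k := by exact_mod_cast h2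
    have h4 : (y i k).natAbs ≤ bd (q ^ w i) (g i) k / q ^ e i (g i - k) := by
      rw [Nat.le_div_iff_mul_le (pow_pos hq _), mul_comm]
      exact h3
    exact_mod_cast h4
  · rw [hx i]
    unfold polys
    congr 2
    funext k
    rw [hy i k]
    show (q : ℤ) ^ e i (g i - k) * y i k = ((q ^ e i (g i - k) : ℕ) : ℤ) * y i k
    rw [Nat.cast_pow]

end Pool.Agent.T2h14.HT
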