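import Pool.Agent.T2h14.HT.Stm

/-!
# Task CF
-/

set_option autoImplicit false

namespace Pool.Agent.T2h14.HT

open Polynomial Pool.Agent.W521.Frob Pool.Agent.W521.Descent Pool.Agent.W521.Density
  Pool.Agent.W521.Count

namespace CF

theorem cf1 (Q : ℤ) (n r : ℕ) : ((X ^ 2 + C Q) ^ n : ℤ[X]).coeff r =
    if 2 ∣ r then Q ^ (n - r / 2) * ((n.choose (r / 2) : ℕ) : ℤ) else 0 := by
  have h : ((X ^ 2 + C Q) ^ n : ℤ[X]) = expand ℤ 2 ((X + C Q) ^ n) := by
    rw [map_pow, map_add, expand_X, expand_C]
  rw [h, coeff_expand two_pos, coeff_X_add_C_pow]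

end CF

open CF in
theorem cf : V_CF := by
  intro Q g H hH k hk
  have h1 : (weil Q H).coeff (2 * g - k) = ∑ n ∈ Finset.range (g + 1),
      H.coeff n * ((X ^ 2 + C (Q : ℤ)) ^ n : ℤ[X]).coeff (g + n - k) := by
    unfold weil
    rw [hH, finsetSum_coeff]
    refine Finset.sum_congr rfl fun n hn => ?_
    have hn' : n ≤ g := by
      have := Finset.mem_range.1 hn
      omega
    rw [coeff_C_mul, coeff_mul_X_pow', if_pos (by omega)]
    congr 2
    omega
  rw [h1]
  have h2 : ∑ i ∈ Finset.range (k / 2 + 1),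
      (((g - k + 2 * i).choose i : ℕ) : ℤ) * (Q : ℤ) ^ i * H.coeff (g - k + 2 * i) =
      ∑ n ∈ (Finset.range (k / 2 + 1)).image (fun i => g - k + 2 * i),
        H.coeff n * ((X ^ 2 + C (Q : ℤ)) ^ n : ℤ[X]).coeff (g + n - k) := by
    rw [Finset.sum_image (fun a _ b _ hab => by
      have : g - k + 2 * a = g - k + 2 * b := hab
      omega)]
    refine Finset.sum_congr rfl fun i hi => ?_
    have hi' : i ≤ k / 2 := by
      have := Finset.mem_range.1 hi
      omega
    have e1 : g + (g - k + 2 * i) - k = 2 * (g - k + i) := by omega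
    rw [cf1, e1, if_pos (Dvd.intro _ rfl), Nat.mul_div_cancel_left _ two_pos]
    have e2 : g - k + 2 * i - (g - k + i) = i := by omega
    have e3 : (g - k + 2 * i).choose (g - k + i) = (g - k + 2 * i).choose i := by
      have h3 : (g - k + i) ≤ g - k + 2 * i := by omega
      rw [← Nat.choose_symm h3, e2]
    rw [e2, e3]
    ring
  rw [h2]
  symm
  refine Finset.sum_subset ?_ ?_
  · intro n hn
    obtain ⟨i, hi, rfl⟩ := Finset.mem_image.1 hn
    have := Finset.mem_range.1 hi
    rw [Finset.mem_range]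
    omega
  · intro n hn hn2
    have hn' := Finset.mem_range.1 hn
    rw [cf1]
    by_cases hd : 2 ∣ g + n - k
    · rw [if_pos hd]
      have h4 : n < (g + n - k) / 2 := by
        by_contra hc
        apply hn2
        obtain ⟨t, ht⟩ := hd
        refine Finset.mem_image.2 ⟨n - t, ?_, ?_⟩
        · rw [Finset.mem_range]
          omega
        · show g - k + 2 * (n - t) = n
          omega
      rw [Nat.choose_eq_zero_of_lt h4]
      simp
    · rw [if_neg hd, mul_zero]

end Pool.Agent.T2h14.HT
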