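import Mathlib
import Pool.Agent.T2h14.HT.Stm2

/-!
# HT/DBM (helper51): the points with divisible next coefficient
-/

set_option autoImplicit false

namespace Pool.Agent.T2h14.HT

open Polynomial Pool.Agent.W521.Frob Pool.Agent.W521.Descent Pool.Agent.W521.Density
  Pool.Agent.W521.Count Pool.Agent.W484.TB

theorem dbm (hS : V_SQC) (hL : V_LNM) : V_DBM := by
  classical
  intro I _ _ g w m e hE i q hq
  have hq0 : 0 < q := hq.pos
  have hgi : 0 < g i := (hE i).pos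
  let s₀ : Σ i, Fin (g i) := ⟨i, ⟨g i - 1, by omega⟩⟩
  have hn0 : 0 < nn g e q s₀ := by
    unfold nn
    exact Nat.pow_pos hq0
  have hnext : ∀ y : (Σ i, Fin (g i)) → ℤ, (polys g (pt g e q y) i).nextCoeff =
      (nn g e q s₀ : ℤ) * y s₀ := by
    intro y
    have h1 : (polys g (pt g e q y) i).nextCoeff = pt g e q y s₀ := by
      unfold polys
      rw [nextCoeff_of_natDegree_pos (by rw [mkPoly_natDegree]; exact hgi), mkPoly_natDegree]
      exact mkPoly_coeff (g i) (fun k => pt g e q y ⟨i, k⟩) ⟨g i - 1, by omega⟩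
    rw [h1]
    rfl
  have hb : (bd (q ^ w i) (g i) (g i - 1) : ℝ) ≤ (4 ^ g i : ℕ) * Real.sqrt (q ^ w i : ℕ) := by
    have h1 := bd_le (q ^ w i) (g i) (g i - 1)
    have h2 : g i - (g i - 1) = 1 := by omega
    rw [h2, pow_one] at h1
    push_cast at h1 ⊢
    exact h1
  have hA := hS q (w i) (nn g e q s₀) (bd (q ^ w i) (g i) (g i - 1)) (4 ^ g i) hq hn0 hb
  have hbb : bbM g w e q s₀ = bd (q ^ w i) (g i) (g i - 1) / nn g e q s₀ := rfl
  let A : Finset ℤ := (Finset.Icc (-(bbM g w e q s₀ : ℤ)) (bbM g w e q s₀)).filter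
    (fun t : ℤ => ((q ^ w i : ℕ) : ℤ) ∣ ((nn g e q s₀ : ℤ) * t) ^ 2)
  have hAeq : {y : ℤ | |y| ≤ ((bd (q ^ w i) (g i) (g i - 1) / nn g e q s₀ : ℕ) : ℤ) ∧
      ((q ^ w i : ℕ) : ℤ) ∣ ((nn g e q s₀ : ℤ) * y) ^ 2} = (A : Set ℤ) := by
    ext t
    rw [Finset.mem_coe, Finset.mem_filter, Finset.mem_Icc, ← hbb, Set.mem_setOf_eq, abs_le]
  rw [hAeq, Set.ncard_coe_finset] at hA
  have hsub : {y : (Σ i, Fin (g i)) → ℤ | y ∈ yboxM g w e q ∧
      ((q ^ w i : ℕ) : ℤ) ∣ (polys g (pt g e q y) i).nextCoeff ^ 2} ⊆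
      ((Fintype.piFinset fun s => if s = s₀ then A else
        Finset.Icc (-(bbM g w e q s : ℤ)) (bbM g w e q s) : Finset ((Σ i, Fin (g i)) → ℤ)) :
        Set ((Σ i, Fin (g i)) → ℤ)) := by
    rintro y ⟨h1, h2⟩
    rw [hnext] at h2
    unfold yboxM at h1
    rw [Fintype.mem_piFinset] at h1
    rw [Finset.mem_coe, Fintype.mem_piFinset]
    intro s
    by_cases h : s = s₀
    · rw [if_pos h, h]
      exact Finset.mem_filter.2 ⟨h1 s₀, h2⟩
    · rw [if_neg h]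
      exact h1 s
  have h3 := Set.ncard_le_ncard hsub (Finset.finite_toSet _)
  rw [Set.ncard_coe_finset, Fintype.card_piFinset,
    ← Finset.mul_prod_erase _ _ (Finset.mem_univ s₀), if_pos rfl] at h3
  have h4 : ∏ s ∈ Finset.univ.erase s₀, (if s = s₀ then A else
      Finset.Icc (-(bbM g w e q s : ℤ)) (bbM g w e q s)).card =
      ∏ s ∈ Finset.univ.erase s₀, (2 * bbM g w e q s + 1) := by
    refine Finset.prod_congr rfl fun s hs => ?_
    rw [if_neg (Finset.ne_of_mem_erase hs), Int.card_Icc]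
    omega
  rw [h4] at h3
  have h5 : ({y : (Σ i, Fin (g i)) → ℤ | y ∈ yboxM g w e q ∧
      ((q ^ w i : ℕ) : ℤ) ∣ (polys g (pt g e q y) i).nextCoeff ^ 2}.ncard : ℝ) ≤
      (A.card : ℝ) * ∏ s ∈ Finset.univ.erase s₀, (2 * (bbM g w e q s : ℝ) + 1) := by
    exact_mod_cast h3
  have h6 : (A.card : ℝ) ≤ 2 * 4 ^ g i + 1 := by exact_mod_cast hA
  have h7 : Real.sqrt q ^ m ≤ 2 * (bbM g w e q s₀ : ℝ) + 1 := (hL g w m e hE q hq0 s₀).1
  have h8 : (0 : ℝ) ≤ ∏ s ∈ Finset.univ.erase s₀, (2 * (bbM g w e q s : ℝ) + 1) :=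
    Finset.prod_nonneg fun s _ => by positivity
  rw [← Finset.mul_prod_erase _ _ (Finset.mem_univ s₀)]
  calc _ ≤ ((A.card : ℝ) * ∏ s ∈ Finset.univ.erase s₀, (2 * (bbM g w e q s : ℝ) + 1)) *
        Real.sqrt q ^ m := mul_le_mul_of_nonneg_right h5 (by positivity)
    _ ≤ ((2 * 4 ^ g i + 1) * ∏ s ∈ Finset.univ.erase s₀, (2 * (bbM g w e q s : ℝ) + 1)) *
        (2 * (bbM g w e q s₀ : ℝ) + 1) := by
        refine mul_le_mul (mul_le_mul_of_nonneg_right h6 h8) h7 (by positivity) (by positivity)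
    _ = _ := by ring

end Pool.Agent.T2h14.HT
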