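import Pool.Agent.T2h14.HT.Stm

/-! task DIV of the project HT: divisibility of the coefficients of Weil polynomials -/

set_option autoImplicit false

namespace Pool.Agent.T2h14.HT

open Polynomial Pool.Agent.W521.Frob

/-- the exponents grow by at most `w i` in `2 i` steps -/
theorem DIV_step {w g : ℕ} {e : ℕ → ℕ} (h : ∀ k, k + 2 ≤ g → e (k + 2) ≤ e k + w) (i : ℕ) :
    ∀ k, k + 2 * i ≤ g → e (k + 2 * i) ≤ e k + w * i := by
  induction i with
  | zero => intro k _; simp
  | succ i ih =>
    intro k hk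
    have h1 := h (k + 2 * i) (by omega)
    have h2 := ih k (by omega)
    have e1 : k + 2 * (i + 1) = k + 2 * i + 2 := by ring
    rw [e1, Nat.mul_succ]
    omega

theorem div (hCF : V_CF) : V_DIV := by
  intro q w g e he H hH
  have hterm : ∀ k ≤ g, ∀ i, 2 * i ≤ k → ((q : ℤ) ^ e (k - 2 * i)) ∣ H.coeff (g - (k - 2 * i)) →
      ((q : ℤ) ^ e k) ∣ (((g - k + 2 * i).choose i : ℕ) : ℤ) * ((q ^ w : ℕ) : ℤ) ^ i * H.coeff (g - k + 2 * i) := by
    intro k hk i hi hd
    have e1 : g - (k - 2 * i) = g - k + 2 * i := by omega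
    rw [e1] at hd
    have h1 := DIV_step he i (k - 2 * i) (by omega)
    have e2 : k - 2 * i + 2 * i = k := by omega
    rw [e2] at h1
    have h2 : ((q : ℤ) ^ e k) ∣ ((q : ℤ) ^ (w * i)) * H.coeff (g - k + 2 * i) := by
      refine (pow_dvd_pow (q : ℤ) h1).trans ?_
      rw [add_comm, pow_add]
      exact mul_dvd_mul_left _ hd
    have e3 : (((g - k + 2 * i).choose i : ℕ) : ℤ) * ((q ^ w : ℕ) : ℤ) ^ i * H.coeff (g - k + 2 * i) =
        (((g - k + 2 * i).choose i : ℕ) : ℤ) * (((q : ℤ) ^ (w * i)) * H.coeff (g - k + 2 * i)) := by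
      push_cast
      rw [pow_mul]
      ring
    rw [e3]
    exact h2.mul_left _
  have hzero : ∀ k ≤ g, (((g - k + 2 * 0).choose 0 : ℕ) : ℤ) * ((q ^ w : ℕ) : ℤ) ^ 0 *
      H.coeff (g - k + 2 * 0) = H.coeff (g - k) := by
    intro k _
    simp
  constructor
  · intro hall k
    induction k using Nat.strong_induction_on with
    | _ k ih =>
      intro hk
      have h1 := hall k hk
      rw [hCF _ g H hH k hk, Finset.sum_range_succ'] at h1
      rw [hzero k hk] at h1
      refine (dvd_add_right (Finset.dvd_sum fun i hi => ?_)).1 h1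
      rw [Finset.mem_range] at hi
      exact hterm k hk (i + 1) (by omega) (ih (k - 2 * (i + 1)) (by omega) (by omega))
  · intro hall k hk
    rw [hCF _ g H hH k hk]
    refine Finset.dvd_sum fun i hi => ?_
    rw [Finset.mem_range] at hi
    exact hterm k hk i (by omega) (hall (k - 2 * i) (by omega))

end Pool.Agent.T2h14.HT
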