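import Mathlib
import Pool.Agent.T2h14.HT.Stm2

/-!
# EVM: the sets of residues with the flip pattern, for several weights
-/

set_option autoImplicit false

namespace Pool.Agent.T2h14.HT

open Polynomial Pool.Agent.W521.Frob Pool.Agent.W521.Descent Pool.Agent.W521.Density
  Pool.Agent.W521.Count Pool.Agent.W484.TB

section

variable {I : Type} [Fintype I] [DecidableEq I] (g : I → ℕ)

/-- The event that the flip pattern holds with the flip in the block `i₀`. -/
noncomputable def flipEventM (Q : I → ℕ) (i₀ : I) (l : ℕ) [Fact l.Prime] :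
    Finset ((Σ i, Fin (g i)) → ZMod l) :=
  blocks g (fun i => if i = i₀ then flipSet l (Q i) (g i) else splitSet l (Q i) (g i))

theorem flipEventM_lower (hg : ∀ i, 0 < g i) (Q : I → ℕ) (i₀ : I) (l : ℕ) [Fact l.Prime]
    (hl : ∀ i, 4 * g i + 12 ≤ l) (hlq : ∀ i, ¬ l ∣ Q i) :
    l ^ (∑ i, g i) ≤ (∏ i, 4 ^ g i * (g i).factorial) * (flipEventM g Q i₀ l).card := by
  unfold flipEventM
  rw [card_blocks, ← Finset.prod_mul_distrib, ← Finset.prod_pow_eq_pow_sum]
  refine Finset.prod_le_prod' fun i _ => ?_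
  split_ifs with h
  · exact flipSet_lower l (Q i) (g i) (hg i) (hl i) (hlq i)
  · exact splitSet_lower l (Q i) (g i) (hl i) (hlq i)

theorem flipPatternM_of_mem (hg : ∀ i, 0 < g i) (Q : I → ℕ) (i₀ : I) (l : ℕ) [Fact l.Prime]
    (x : (Σ i, Fin (g i)) → ℤ) (hx : (fun s => ((x s : ℤ) : ZMod l)) ∈ flipEventM g Q i₀ l) :
    FlipPatternM Q (polys g x) i₀ l := by
  classical
  unfold flipEventM at hx
  rw [mem_blocks] at hx
  have hmap : ∀ i, (polys g x i).map (Int.castRingHom (ZMod l)) =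
      mkPoly (g i) (fun k => ((x ⟨i, k⟩ : ℤ) : ZMod l)) := by
    intro i
    unfold polys
    rw [map_mkPoly]
    rfl
  have h0 := hx i₀
  rw [if_pos rfl] at h0
  obtain ⟨T₀, hT₀, hv₀⟩ := Finset.mem_image.1 h0
  obtain ⟨t₀, ht₀, T', hT', -, htT', hins, hcard⟩ := mem_flipFam l (Q i₀) (hg i₀) T₀ hT₀
  have h1 : ∀ i, i ≠ i₀ → ∃ T ⊆ SS l (Q i), T.card = g i ∧ vec (g i) T =
      (fun k => ((x ⟨i, k⟩ : ℤ) : ZMod l)) := by
    intro i hi
    have h2 := hx i
    rw [if_neg hi] at h2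
    obtain ⟨T, hT, hv⟩ := Finset.mem_image.1 h2
    obtain ⟨h3, h4⟩ := Finset.mem_powersetCard.1 hT
    exact ⟨T, h3, h4, hv⟩
  choose T hT1 hT2 hT3 using h1
  refine ⟨fun i => if hi : i = i₀ then T₀ else T i hi, t₀, ?_, (mem_NN l (Q i₀) t₀).1 ht₀, ?_, ?_⟩
  · simp [hins]
  · intro i
    rw [hmap]
    by_cases hi : i = i₀
    · subst hi
      simp only [dite_true]
      rw [← mkPoly_vec l T₀ hcard, hv₀]
    · simp only [dif_neg hi]
      rw [← mkPoly_vec l (T i hi) (hT2 i hi), hT3 i hi]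
  · intro i t ht hne
    by_cases hi : i = i₀
    · subst hi
      simp only [dite_true] at ht
      rw [hins, Finset.mem_insert] at ht
      rcases ht with e | e
      · exact absurd ⟨rfl, e⟩ hne
      · exact (mem_SS l (Q i) t).1 (hT' e)
    · simp only [dif_neg hi] at ht
      exact (mem_SS l (Q i) t).1 (hT1 i hi ht)

end

theorem evm : V_EVM := by
  intro I _ _ g hg Q i₀ l _ hl hlq
  exact ⟨flipEventM g Q i₀ l, flipEventM_lower g hg Q i₀ l hl hlq,
    fun x hx => flipPatternM_of_mem g hg Q i₀ l x hx⟩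

end Pool.Agent.T2h14.HT
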