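import Mathlib
import Pool.Agent.T2h14.HT.Stm2

set_option autoImplicit false

namespace Pool.Agent.T2h14.HT

open Polynomial Pool.Agent.W521.Frob Pool.Agent.W521.Descent Pool.Agent.W521.Density
  Pool.Agent.W521.Count

theorem size_nonnegM (q w g : ℕ) (e : ℕ → ℕ) : 0 ≤ size q w g e :=
  Finset.prod_nonneg fun k _ => by positivity

theorem rt_nonnegM (q m : ℕ) : 0 ≤ rt q m := by
  unfold rt
  rcases Nat.eq_zero_or_pos q with h | h
  · subst h
    simp
  · have : (1 : ℝ) ≤ q := by exact_mod_cast h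
    have := Real.log_nonneg this
    positivity

theorem fnm (hHPA : V_HPA) (hLOB : V_LOB) (hADM : V_ADM) (hUPB : V_UPB) (hRLM : V_RLM) : V_FNM := by
  classical
  intro I _ w g m r h hm hr hh E _
  have hg : ∀ i, 0 < g i := fun i => by have := hr i; omega
  have hexp : ∀ i, Expo (w i) (g i) m (hodgePolygon (w i) (h i)) :=
    fun i => hHPA (w i) (g i) m (h i) (hh i) hm (hg i)
  obtain ⟨C₁, hC₁, hbad⟩ := hADM g w m (fun i => hodgePolygon (w i) (h i))
    (Pool.Agent.W484.TB.splitPrimes E)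
    (fun q f => Pool.Agent.T2h14.PW.Stm.NoRelations E q r w f)
    (Pool.Agent.W484.TB.dense_splitPrimes E) hexp
    (fun q hq x hx => hRLM g E q w hq.pos.ne' r hr x hx)
  choose c hc hlow using fun i => hLOB (w i) (g i) m (hodgePolygon (w i) (h i)) (hexp i)
  -- the constants
  obtain ⟨c₀, hc₀, hc₀le⟩ : ∃ c₀ : ℝ, 0 < c₀ ∧ ∀ i, c₀ ≤ c i := by
    rcases isEmpty_or_nonempty I with hI | hI
    · exact ⟨1, one_pos, fun i => (hI.false i).elim⟩
    · obtain ⟨i, -, hi⟩ := Finset.exists_min_image Finset.univ c Finset.univ_nonempty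
      exact ⟨c i, hc i, fun j => hi j (Finset.mem_univ j)⟩
  have hprodc : 0 < ∏ i, c i := Finset.prod_pos fun i _ => hc i
  let K : I → ℝ := fun i => (3 * 4 ^ g i) ^ g i
  have hK : ∀ i, 0 < K i := fun i => by positivity
  have hKs : 0 ≤ ∑ i, K i := Finset.sum_nonneg fun i _ => (hK i).le
  refine ⟨C₁ * (∏ i, c i)⁻¹ + ∑ i, K i, c₀, hc₀, ?_⟩
  intro q hq
  have hq0 := hq.pos
  refine ⟨fun i => ⟨(hlow i q hq0).1, ?_, ?_⟩, ?_⟩
  · exact (mul_le_mul_of_nonneg_right (hc₀le i) (size_nonnegM _ _ _ _)).trans (hlow i q hq0).2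
  · refine (hUPB (w i) (g i) m _ (hexp i) q hq0).trans ?_
    refine mul_le_mul_of_nonneg_right ?_ (size_nonnegM _ _ _ _)
    have h1 : K i ≤ ∑ i, K i := Finset.single_le_sum (fun j _ => (hK j).le) (Finset.mem_univ i)
    have h2 : 0 ≤ C₁ * (∏ i, c i)⁻¹ := by positivity
    change K i ≤ _
    linarith
  · have h3 : ({f : I → ℤ[X] | (∀ i, f i ∈ latticeWeil q (w i) (g i) (hodgePolygon (w i) (h i))) ∧
        ¬ Pool.Agent.T2h14.PW.Stm.NoRelations E q r w f}.ncard : ℝ) ≤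
        C₁ * rt q m * ∏ i, size q (w i) (g i) (hodgePolygon (w i) (h i)) := hbad q hq
    have h4 : (∏ i, c i) * ∏ i, size q (w i) (g i) (hodgePolygon (w i) (h i)) ≤
        ∏ i, ((latticeWeil q (w i) (g i) (hodgePolygon (w i) (h i))).ncard : ℝ) := by
      rw [← Finset.prod_mul_distrib]
      exact Finset.prod_le_prod (fun i _ => mul_nonneg (hc i).le (size_nonnegM _ _ _ _))
        fun i _ => (hlow i q hq0).2
    have h5 : ∏ i, size q (w i) (g i) (hodgePolygon (w i) (h i)) ≤ (∏ i, c i)⁻¹ *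
        ∏ i, ((latticeWeil q (w i) (g i) (hodgePolygon (w i) (h i))).ncard : ℝ) := by
      rw [← div_eq_inv_mul, le_div_iff₀ hprodc, mul_comm]
      exact h4
    have hrt := rt_nonnegM q m
    have hN : 0 ≤ ∏ i, ((latticeWeil q (w i) (g i) (hodgePolygon (w i) (h i))).ncard : ℝ) :=
      Finset.prod_nonneg fun i _ => Nat.cast_nonneg _
    calc _ ≤ C₁ * rt q m * ∏ i, size q (w i) (g i) (hodgePolygon (w i) (h i)) := h3
      _ ≤ C₁ * rt q m * ((∏ i, c i)⁻¹ *
          ∏ i, ((latticeWeil q (w i) (g i) (hodgePolygon (w i) (h i))).ncard : ℝ)) :=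
          mul_le_mul_of_nonneg_left h5 (mul_nonneg hC₁.le hrt)
      _ = (C₁ * (∏ i, c i)⁻¹) * rt q m *
          ∏ i, ((latticeWeil q (w i) (g i) (hodgePolygon (w i) (h i))).ncard : ℝ) := by ring
      _ ≤ (C₁ * (∏ i, c i)⁻¹ + ∑ i, K i) * rt q m *
          ∏ i, ((latticeWeil q (w i) (g i) (hodgePolygon (w i) (h i))).ncard : ℝ) := by
          refine mul_le_mul_of_nonneg_right ?_ hN
          refine mul_le_mul_of_nonneg_right ?_ hrt
          linarith

end Pool.Agent.T2h14.HT
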