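import Mathlib
import Pool.Agent.T2h14.HT.Stm2

/-!
# FOM: all roots can be flipped, for several weights
-/

set_option autoImplicit false

namespace Pool.Agent.T2h14.HT

open Polynomial Pool.Agent.W521.Frob Pool.Agent.W521.Descent Pool.Agent.W521.Density
  Pool.Agent.W521.Count Pool.Agent.W484.TB Pool.Agent.W521.Criterion

theorem fom (hF : V_FLM) : V_FOM := by
  intro I Q h hQ hm L _ _ _ j hL E _ _ _ _ i hirr l hl hl2 hlq hlE hpat α hα
  have hm' : ∀ _ : Unit, (h i).Monic := fun _ => hm i
  have hL' : ∀ _ : Unit, ∀ z : ℂ, aeval z (weil (Q i) (h i)) = 0 → ∃ x : L, j x = z :=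
    fun _ => hL i
  obtain ⟨σ, α₀, hFr, hα₀, h1, h2, h3⟩ := hF Q h hm L i
    (splits_h (h := fun _ : Unit => h i) (hQ i) hm' L j hL' ())
    (quad_L (h := fun _ : Unit => h i) (hQ i) hm' L j hL' ()) l hl hl2 hlq hpat
  obtain ⟨τ, hτ⟩ := exists_tau (h := fun _ : Unit => h i) (hQ i) hm' L j hL' () hirr α₀ α hα₀ hα
  have hqL : (Q i : L) ≠ 0 := by exact_mod_cast hQ i
  have hτs : ∀ x, τ (τ.symm x) = x := fun x => τ.apply_symm_apply x
  have hpre : τ.symm α = α₀ ∨ τ.symm α = Q i / α₀ := by
    rcases hτ with e | e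
    · left
      rw [← e, τ.symm_apply_apply]
    · right
      apply τ.injective
      rw [τ.apply_symm_apply, map_div₀, map_natCast, e, div_div_cancel₀ hqL]
  have hσ' : σ (Q i / α₀) = α₀ := by
    rw [map_div₀, map_natCast, h1, div_div_cancel₀ hqL]
  refine ⟨(τ.symm.trans σ).trans τ, ?_, ?_, ?_, ?_⟩
  · intro y
    rw [AlgEquiv.trans_apply, AlgEquiv.trans_apply]
    have e1 : τ.symm (algebraMap E L y) = algebraMap E L (τ.symm.restrictNormal E y) :=
      (AlgEquiv.restrictNormal_commutes _ E y).symm
    rw [e1, trivial_on hlE hFr, ← e1, hτs]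
  · rw [AlgEquiv.trans_apply, AlgEquiv.trans_apply]
    rcases hpre with e | e
    · rw [e, h1, map_div₀, map_natCast]
      have h4 : τ α₀ = α := by rw [← e, hτs]
      rw [h4]
    · rw [e, hσ']
      have h4 : τ (Q i / α₀) = α := by rw [← e, hτs]
      rw [map_div₀, map_natCast] at h4
      rw [← h4, div_div_cancel₀ hqL]
  · intro h4
    have h5 : τ.symm α = Q i / τ.symm α := by
      conv_lhs => rw [h4]
      rw [map_div₀, map_natCast]
    rcases hpre with e | e
    · rw [e] at h5
      exact h2 h5
    · rw [e, div_div_cancel₀ hqL] at h5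
      exact h2 h5.symm
  · intro i' β hβ hne
    have h4 : σ (τ.symm β) = τ.symm β := by
      refine h3 i' _ (aeval_alg L _ _ _ hβ) fun hi => ?_
      obtain ⟨hne1, hne2⟩ := hne hi
      constructor
      · intro e
        rcases hpre with e' | e'
        · exact hne1 (τ.symm.injective (e.trans e'.symm))
        · apply hne2
          apply τ.symm.injective
          rw [e, map_div₀, map_natCast, e', div_div_cancel₀ hqL]
      · intro e
        rcases hpre with e' | e'
        · apply hne2
          apply τ.symm.injective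
          rw [e, map_div₀, map_natCast, e']
        · exact hne1 (τ.symm.injective (e.trans e'.symm))
    rw [AlgEquiv.trans_apply, AlgEquiv.trans_apply, h4, hτs]

end Pool.Agent.T2h14.HT
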