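import Pool.Agent.T2h14.HT.Stm

set_option autoImplicit false

namespace Pool.Agent.T2h14.HT

namespace HPA

theorem half_le (w g : ℕ) (h : ℕ → ℕ) (hs : ∀ p, p ≤ w → h (w - p) = h p)
    (hr : ∑ p ∈ Finset.range (w + 1), h p = 2 * g) (p : ℕ) (hp : p ≤ w) (hp2 : w < 2 * p) :
    g ≤ ∑ p' ∈ Finset.range p, h p' := by
  have h1 : ∑ j ∈ Finset.Ico p (w + 1), h j = ∑ j ∈ Finset.range (w + 1 - p), h j := by
    have h2 := Finset.sum_Ico_reflect h (m := w + 1 - p) (n := w) 0 (by omega)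
    rw [show w + 1 - (w + 1 - p) = p by omega, Nat.sub_zero] at h2
    rw [← h2, ← Finset.range_eq_Ico]
    refine Finset.sum_congr rfl fun j hj => hs j ?_
    have := Finset.mem_range.1 hj
    omega
  have h3 := Finset.sum_range_add_sum_Ico h (show p ≤ w + 1 by omega)
  have h4 : ∑ j ∈ Finset.range (w + 1 - p), h j ≤ ∑ j ∈ Finset.range p, h j :=
    Finset.sum_le_sum_of_subset (Finset.range_mono (by omega))
  omega

end HPA

theorem hpa : V_HPA := by
  intro w g m h hH hm hg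
  have key := HPA.half_le w g h hH.symm hH.rank
  have hsplit : ∀ f : ℕ → ℕ, ∑ p ∈ Finset.Icc 1 w, f p =
      ∑ p ∈ Finset.Ico 1 (w / 2 + 1), f p + ∑ p ∈ Finset.Ico (w / 2 + 1) (w + 1), f p := by
    intro f
    rw [Finset.sum_Ico_consecutive f (by omega) (by omega)]
    rfl
  have hzero : ∀ k, k ≤ g → ∑ p ∈ Finset.Ico (w / 2 + 1) (w + 1),
      (k - ∑ p' ∈ Finset.range p, h p') = 0 := by
    intro k hk
    refine Finset.sum_eq_zero fun p hp => ?_
    obtain ⟨h1, h2⟩ := Finset.mem_Ico.1 hp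
    have := key p (by omega) (by omega)
    omega
  refine ⟨hg, hm, ?_, ?_, ?_⟩
  · simp [hodgePolygon]
  · intro k hk1 hkg
    obtain ⟨p0, hp0, hp0m⟩ := hH.level
    unfold hodgePolygon
    rw [hsplit, hzero k hkg, add_zero,
      ← Finset.sum_Ico_consecutive _ (show 1 ≤ p0 + 1 by omega) (show p0 + 1 ≤ w / 2 + 1 by omega)]
    have h1 : ∑ p ∈ Finset.Ico 1 (p0 + 1), (k - ∑ p' ∈ Finset.range p, h p') ≤ p0 * k := by
      have := Finset.sum_le_card_nsmul (Finset.Ico 1 (p0 + 1))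
        (fun p => k - ∑ p' ∈ Finset.range p, h p') k (fun p _ => Nat.sub_le _ _)
      simpa using this
    have h2 : ∑ p ∈ Finset.Ico (p0 + 1) (w / 2 + 1), (k - ∑ p' ∈ Finset.range p, h p') ≤
        (w / 2 - p0) * (k - 1) := by
      have := Finset.sum_le_card_nsmul (Finset.Ico (p0 + 1) (w / 2 + 1))
        (fun p => k - ∑ p' ∈ Finset.range p, h p') (k - 1) (fun p hp => by
          have h3 : h p0 ≤ ∑ p' ∈ Finset.range p, h p' :=
            Finset.single_le_sum (fun _ _ => Nat.zero_le _)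
              (Finset.mem_range.2 (by have := (Finset.mem_Ico.1 hp).1; omega))
          omega)
      simpa using this
    obtain ⟨j, rfl⟩ : ∃ j, k = j + 1 := ⟨k - 1, by omega⟩
    obtain ⟨t, ht⟩ : ∃ t, w / 2 = p0 + t := ⟨w / 2 - p0, by omega⟩
    rw [ht, Nat.add_sub_cancel_left, Nat.add_sub_cancel] at h2
    rw [ht]
    have h5 : 2 * (p0 + t) ≤ w := by omega
    have h6 := Nat.mul_le_mul_right j h5
    rw [ht] at *
    nlinarith [h1, h2, h6]
  · intro k hk
    unfold hodgePolygon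
    rw [hsplit, hsplit, hzero k (by omega), hzero (k + 2) hk, add_zero, add_zero]
    have h1 : ∑ p ∈ Finset.Ico 1 (w / 2 + 1), (k + 2 - ∑ p' ∈ Finset.range p, h p') ≤
        ∑ p ∈ Finset.Ico 1 (w / 2 + 1), ((k - ∑ p' ∈ Finset.range p, h p') + 2) :=
      Finset.sum_le_sum fun p _ => by omega
    rw [Finset.sum_add_distrib] at h1
    have h2 : ∑ _p ∈ Finset.Ico 1 (w / 2 + 1), 2 = (w / 2) * 2 := by simp
    rw [h2] at h1
    omega

end Pool.Agent.T2h14.HT
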