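import Pool.Agent.T2h14.HT.Stm

/-!
# Weil polynomials of Hodge type: multiples in an interval (INT)
-/

set_option autoImplicit false

namespace Pool.Agent.T2h14.HT

open Polynomial Pool.Agent.W521.Frob Pool.Agent.W521.Descent Pool.Agent.W521.Density
  Pool.Agent.W521.Count

theorem int : V_INT := by
  intro n d r hn hr
  have hn' : (0 : ℝ) < n := by exact_mod_cast hn
  refine ⟨Finset.Icc ⌈((d : ℝ) - r) / n⌉ ⌊((d : ℝ) + r) / n⌋, ?_, ?_⟩
  · intro y hy
    rw [Finset.mem_Icc, Int.ceil_le, Int.le_floor, div_le_iff₀ hn', le_div_iff₀ hn'] at hy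
    push_cast
    rw [abs_le]
    constructor <;> linarith [hy.1, hy.2, mul_comm (y : ℝ) n]
  · rw [Int.card_Icc]
    have h1 := Int.lt_floor_add_one (((d : ℝ) + r) / n)
    have h2 := Int.ceil_lt_add_one (((d : ℝ) - r) / n)
    have h3 : ((d : ℝ) + r) / n = ((d : ℝ) - r) / n + 2 * (r / n) := by
      field_simp
      ring
    have h4 : 1 ≤ r / n := (one_le_div hn').2 hr
    have h5 : ((⌊((d : ℝ) + r) / n⌋ + 1 - ⌈((d : ℝ) - r) / n⌉ : ℤ) : ℝ) ≤
        (((⌊((d : ℝ) + r) / n⌋ + 1 - ⌈((d : ℝ) - r) / n⌉).toNat : ℤ) : ℝ) := by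
      exact_mod_cast Int.self_le_toNat _
    push_cast at h5
    linarith

end Pool.Agent.T2h14.HT
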