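import Pool.Agent.T2h14.HT.Stm

/-!
# Project HT, task LEN: the lengths of the sides of the box
-/

set_option autoImplicit false

namespace Pool.Agent.T2h14.HT

open Polynomial Pool.Agent.W521.Frob Pool.Agent.W521.Descent Pool.Agent.W521.Density
  Pool.Agent.W521.Count

theorem len : V_LEN := by
  intro I g w m e he q hq s
  obtain ⟨i, k⟩ := s
  have hk := k.2
  obtain ⟨-, -, -, hhalf, -⟩ := he i
  show (Real.sqrt q ^ m ≤ 2 * (bb g e q w ⟨i, k⟩ : ℝ) + 1) ∧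
    (2 * (bb g e q w ⟨i, k⟩ : ℝ) + 1 ≤ 3 * 4 ^ g i *
      Real.sqrt q ^ (w * (g i - k) - 2 * e i (g i - k)))
  have h2 := hhalf (g i - k) (by omega) (Nat.sub_le _ _)
  have hq1 : (1 : ℝ) ≤ q := by exact_mod_cast hq
  have hs1 : 1 ≤ Real.sqrt q := Real.one_le_sqrt.2 hq1
  have hs0 : 0 < Real.sqrt q := by linarith
  have hsq : Real.sqrt q ^ 2 = q := Real.sq_sqrt (by linarith)
  set j := g i - k with hj
  set x : ℝ := 4 ^ g i * Real.sqrt q ^ (w * j - 2 * e i j) with hx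
  have hbb : bb g e q w ⟨i, k⟩ = ⌊x⌋₊ := by
    show bd (q ^ w) (g i) k / q ^ e i (g i - k) = ⌊x⌋₊
    unfold bd
    rw [← Nat.floor_div_natCast]
    congr 1
    have e1 : Real.sqrt ((q ^ w : ℕ) : ℝ) = Real.sqrt q ^ w := by
      rw [Nat.cast_pow, ← hsq, ← pow_mul, mul_comm 2 w, pow_mul, Real.sqrt_sq (by positivity), hsq]
    have e2 : ((q ^ e i (g i - k) : ℕ) : ℝ) = Real.sqrt q ^ (2 * e i j) := by
      rw [Nat.cast_pow, pow_mul, hsq]
    rw [e1, e2, ← pow_mul, ← hj, hx, mul_div_assoc, div_eq_iff (by positivity) |>.2]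
    rw [← pow_add]
    congr 1
    omega
  have hx1 : Real.sqrt q ^ m ≤ x := by
    have h3 : Real.sqrt q ^ m ≤ Real.sqrt q ^ (w * j - 2 * e i j) :=
      pow_le_pow_right₀ hs1 (by omega)
    have h4 : (1 : ℝ) ≤ 4 ^ g i := one_le_pow₀ (by norm_num)
    have h5 : 0 ≤ Real.sqrt q ^ (w * j - 2 * e i j) := by positivity
    calc Real.sqrt q ^ m ≤ 1 * Real.sqrt q ^ (w * j - 2 * e i j) := by rw [one_mul]; exact h3
      _ ≤ x := mul_le_mul_of_nonneg_right h4 h5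
  have hx2 : 1 ≤ x := (one_le_pow₀ hs1).trans hx1
  rw [hbb]
  have h6 := Nat.lt_floor_add_one x
  have h7 := Nat.floor_le (show 0 ≤ x by linarith)
  have h8 : (0 : ℝ) ≤ (⌊x⌋₊ : ℝ) := Nat.cast_nonneg _
  constructor
  · linarith
  · have e3 : 3 * 4 ^ g i * Real.sqrt q ^ (w * j - 2 * e i j) = 3 * x := by
      rw [hx]
      ring
    rw [e3]
    linarith

end Pool.Agent.T2h14.HT
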