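import Mathlib
import Pool.Agent.T2h14.HT.Stm2

set_option autoImplicit false

namespace Pool.Agent.T2h14.HT

theorem lnm (hLEN : V_LEN) : V_LNM := by
  intro I g w m e he q hq s
  exact hLEN (fun _ : Unit => g s.1) (w s.1) m (fun _ => e s.1) (fun _ => he s.1) q hq ⟨(), s.2⟩

end Pool.Agent.T2h14.HT
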