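import Pool.Agent.T2h14.HT.Stm

/-!
# Weil polynomials of Hodge type: the lower bound for large `q` (LOA)
-/

set_option autoImplicit false

namespace Pool.Agent.T2h14.HT

open Polynomial Pool.Agent.W521.Frob Pool.Agent.W521.Descent Pool.Agent.W521.Density
  Pool.Agent.W521.Count

open Pool.Agent.W521.Lower in
theorem prod_fin_reflect (g : ℕ) (f : ℕ → ℝ) :
    ∏ k : Fin g, f (g - (k : ℕ)) = ∏ j ∈ Finset.Icc 1 g, f j := by
  rw [Fin.prod_univ_eq_prod_range (fun k => f (g - k)) g]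
  refine Finset.prod_nbij' (fun k => g - k) (fun j => g - j) ?_ ?_ ?_ ?_ ?_
  · intro a ha
    rw [Finset.mem_range] at ha
    rw [Finset.mem_Icc]
    omega
  · intro a ha
    rw [Finset.mem_Icc] at ha
    rw [Finset.mem_range]
    omega
  · intro a ha
    rw [Finset.mem_range] at ha
    omega
  · intro a ha
    rw [Finset.mem_Icc] at ha
    omega
  · intro a _
    rfl

theorem latticeWeil_finite {q w g : ℕ} (hq : 0 < q) (e : ℕ → ℕ) : (latticeWeil q w g e).Finite :=
  (finite_weilPolys (pow_ne_zero w hq.ne')).subset fun _ h => h.1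

theorem sqrt_pow_cast (q w : ℕ) : Real.sqrt ((q ^ w : ℕ) : ℝ) = Real.sqrt q ^ w := by
  push_cast
  rw [Real.sqrt_eq_iff_mul_self_eq (by positivity) (by positivity), ← mul_pow,
    Real.mul_self_sqrt (Nat.cast_nonneg q)]

theorem one_le_sqrt_cast {q : ℕ} (hq : 0 < q) : 1 ≤ Real.sqrt q := by
  rw [Real.one_le_sqrt]
  exact_mod_cast hq

open Pool.Agent.W521.Lower in
theorem loa (hdiv : V_DIV) (hint : V_INT) : V_LOA := by
  classical
  intro q w g m e hq he hm
  have hs1 := one_le_sqrt_cast hq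
  have hsq : Real.sqrt q ^ 2 = q := Real.sq_sqrt (Nat.cast_nonneg q)
  have hQ : 0 < q ^ w := Nat.pow_pos hq
  -- the increments
  have hj : ∀ k : Fin g, 1 ≤ g - (k : ℕ) ∧ g - (k : ℕ) ≤ g := fun k => by
    have := k.2
    omega
  have hnr : ∀ k : Fin g, ((q ^ e (g - (k : ℕ)) : ℕ) : ℝ) ≤
      Real.sqrt ((q ^ w : ℕ) : ℝ) ^ (g - (k : ℕ)) / 2 ^ g := by
    intro k
    have h1 := he.half _ (hj k).1 (hj k).2
    rw [le_div_iff₀ (by positivity), sqrt_pow_cast, ← pow_mul]
    have h2 : ((q ^ e (g - (k : ℕ)) : ℕ) : ℝ) = Real.sqrt q ^ (2 * e (g - (k : ℕ))) := by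
      rw [pow_mul, hsq]
      push_cast
      rfl
    rw [h2]
    calc Real.sqrt q ^ (2 * e (g - (k : ℕ))) * 2 ^ g
        ≤ Real.sqrt q ^ (2 * e (g - (k : ℕ))) * Real.sqrt q ^ m :=
          mul_le_mul_of_nonneg_left hm (by positivity)
      _ = Real.sqrt q ^ (2 * e (g - (k : ℕ)) + m) := (pow_add _ _ _).symm
      _ ≤ Real.sqrt q ^ (w * (g - (k : ℕ))) := pow_le_pow_right₀ hs1 h1
  choose T hT1 hT2 using fun k : Fin g => hint (q ^ e (g - (k : ℕ))) ((dick (q ^ w) g).coeff k)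
    (Real.sqrt ((q ^ w : ℕ) : ℝ) ^ (g - (k : ℕ)) / 2 ^ g) (Nat.pow_pos hq) (hnr k)
  let x : (Fin g → ℤ) → (Fin g → ℤ) := fun y k => ((q ^ e (g - (k : ℕ)) : ℕ) : ℤ) * y k
  let F : (Fin g → ℤ) → ℤ[X] := fun y => weil (q ^ w) (mkPoly g (x y))
  have hinj : Function.Injective F := by
    intro y y' hyy
    have h1 := weil_injective hQ.ne' (mkPoly_natDegree g _) (mkPoly_natDegree g _) hyy
    have h2 := mkPoly_injective g h1
    funext k
    have h3 := congrFun h2 k
    exact mul_left_cancel₀ (by exact_mod_cast (Nat.pow_pos hq).ne') h3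
  have hmem : ∀ y ∈ Fintype.piFinset T, F y ∈ latticeWeil q w g e := by
    intro y hy
    rw [Fintype.mem_piFinset] at hy
    refine ⟨mem_weilPolys hQ (mkPoly_monic g _) (mkPoly_natDegree g _)
      (real_roots hQ he.pos _ fun k => hT1 k (y k) (hy k)), ?_⟩
    refine (hdiv q w g e he.step _ (mkPoly_natDegree g _)).2 fun k hk => ?_
    rcases Nat.eq_zero_or_pos k with h0 | h0
    · rw [h0, he.zero, pow_zero]
      exact one_dvd _
    · have h1 := mkPoly_coeff g (x y) ⟨g - k, by omega⟩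
      change (mkPoly g (x y)).coeff (g - k) = ((q ^ e (g - (g - k)) : ℕ) : ℤ) * _ at h1
      rw [h1, Nat.sub_sub_self hk]
      push_cast
      exact dvd_mul_right _ _
  have hcard : (Fintype.piFinset T).card ≤ (latticeWeil q w g e).ncard := by
    rw [← Set.ncard_coe_finset, ← Set.ncard_image_of_injective _ hinj]
    refine Set.ncard_le_ncard ?_ (latticeWeil_finite hq e)
    rintro _ ⟨y, hy, rfl⟩
    exact hmem y (by simpa using hy)
  have hfac : ∀ k : Fin g, Real.sqrt q ^ (w * (g - (k : ℕ)) - 2 * e (g - (k : ℕ))) ≤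
      2 ^ g * ((T k).card : ℝ) := by
    intro k
    have h1 := he.half _ (hj k).1 (hj k).2
    have h2 : ((q ^ e (g - (k : ℕ)) : ℕ) : ℝ) = Real.sqrt q ^ (2 * e (g - (k : ℕ))) := by
      rw [pow_mul, hsq]
      push_cast
      rfl
    have h3 := hT2 k
    rw [h2, sqrt_pow_cast, ← pow_mul, div_div, div_le_iff₀ (by positivity)] at h3
    have h4 : Real.sqrt q ^ (w * (g - (k : ℕ))) =
        Real.sqrt q ^ (w * (g - (k : ℕ)) - 2 * e (g - (k : ℕ))) *
          Real.sqrt q ^ (2 * e (g - (k : ℕ))) := by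
      rw [← pow_add]
      congr 1
      omega
    rw [h4] at h3
    have h5 : (0 : ℝ) < Real.sqrt q ^ (2 * e (g - (k : ℕ))) := by positivity
    refine le_of_mul_le_mul_right (h3.trans (le_of_eq ?_)) h5
    ring
  unfold size
  rw [← prod_fin_reflect g (fun j => Real.sqrt q ^ (w * j - 2 * e j))]
  calc ∏ k : Fin g, Real.sqrt q ^ (w * (g - (k : ℕ)) - 2 * e (g - (k : ℕ)))
      ≤ ∏ k : Fin g, (2 ^ g * ((T k).card : ℝ)) :=
        Finset.prod_le_prod (fun k _ => by positivity) fun k _ => hfac k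
    _ = 2 ^ (g ^ 2) * ((Fintype.piFinset T).card : ℝ) := by
        rw [Finset.prod_mul_distrib, Finset.prod_const, Finset.card_univ, Fintype.card_fin,
          ← pow_mul, ← sq, Fintype.card_piFinset]
        push_cast
        rfl
    _ ≤ 2 ^ (g ^ 2) * ((latticeWeil q w g e).ncard : ℝ) := by
        refine mul_le_mul_of_nonneg_left ?_ (by positivity)
        exact_mod_cast hcard

end Pool.Agent.T2h14.HT
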