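import Pool.Agent.T2h14.HT.Stm
import Pool.Agent.T2h14.HT.LOA

/-!
# Weil polynomials of Hodge type: the lower bound (LOB)
-/

set_option autoImplicit false

namespace Pool.Agent.T2h14.HT

open Polynomial Pool.Agent.W521.Frob Pool.Agent.W521.Descent Pool.Agent.W521.Density
  Pool.Agent.W521.Count

open Pool.Agent.W521.Lower in
theorem lob (hloa : V_LOA) (hdiv : V_DIV) : V_LOB := by
  intro w g m e he
  obtain ⟨S, hS⟩ : ∃ S : ℕ, S = ∑ k ∈ Finset.Icc 1 g, (w * k - 2 * e k) := ⟨_, rfl⟩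
  have hA : (1 : ℝ) ≤ 2 ^ (g ^ 2) := one_le_pow₀ (by norm_num)
  have hB : (1 : ℝ) ≤ (2 ^ g) ^ S := one_le_pow₀ (one_le_pow₀ (by norm_num))
  refine ⟨(2 ^ (g ^ 2) * (2 ^ g) ^ S)⁻¹, by positivity, fun q hq => ?_⟩
  refine ⟨latticeWeil_finite hq e, ?_⟩
  have hQ : 0 < q ^ w := Nat.pow_pos hq
  have hs1 := one_le_sqrt_cast hq
  rw [inv_mul_le_iff₀ (by positivity)]
  have hn0 : (0 : ℝ) ≤ ((latticeWeil q w g e).ncard : ℝ) := Nat.cast_nonneg _
  by_cases hm : (2 : ℝ) ^ g ≤ Real.sqrt q ^ m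
  · calc size q w g e ≤ 2 ^ (g ^ 2) * ((latticeWeil q w g e).ncard : ℝ) := hloa q w g m e hq he hm
      _ ≤ 2 ^ (g ^ 2) * (2 ^ g) ^ S * ((latticeWeil q w g e).ncard : ℝ) := by
          refine mul_le_mul_of_nonneg_right ?_ hn0
          exact le_mul_of_one_le_right (by positivity) hB
  · push Not at hm
    have h1 : Real.sqrt q ≤ 2 ^ g := by
      refine le_trans ?_ hm.le
      exact le_self_pow₀ hs1 he.mpos.ne'
    have h2 : size q w g e ≤ (2 ^ g) ^ S := by
      unfold size
      rw [Finset.prod_pow_eq_pow_sum, ← hS]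
      exact pow_le_pow_left₀ (Real.sqrt_nonneg _) h1 _
    have h3 : (1 : ℝ) ≤ ((latticeWeil q w g e).ncard : ℝ) := by
      have h4 : 0 < (latticeWeil q w g e).ncard := by
        refine (Set.ncard_pos (latticeWeil_finite hq e)).2 ⟨weil (q ^ w) (X ^ g), ?_, ?_⟩
        · refine mem_weilPolys hQ (monic_X_pow g) (natDegree_X_pow g) fun z hz => ?_
          refine ⟨0, by rw [abs_zero]; positivity, ?_⟩
          rw [map_pow, aeval_X] at hz
          rw [eq_zero_of_pow_eq_zero hz]
          simp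
        · refine (hdiv q w g e he.step _ (natDegree_X_pow g)).2 fun k hk => ?_
          rcases Nat.eq_zero_or_pos k with h0 | h0
          · rw [h0, he.zero, pow_zero]
            exact one_dvd _
          · have := he.pos
            rw [coeff_X_pow, if_neg (by omega)]
            exact dvd_zero _
      exact_mod_cast h4
    calc size q w g e ≤ (2 ^ g) ^ S := h2
      _ ≤ (2 ^ (g ^ 2) * (2 ^ g) ^ S) * 1 := by
          rw [mul_one]
          exact le_mul_of_one_le_left (by positivity) hA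
      _ ≤ _ := mul_le_mul_of_nonneg_left h3 (by positivity)

end Pool.Agent.T2h14.HT
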