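import Mathlib
import Pool.Agent.T2h14.HT.Stm2
import Pool.Agent.N578.LB.Main

/-!
# HT/LTM (helper51): almost all points of lattices are good
-/

set_option autoImplicit false

namespace Pool.Agent.T2h14.HT

open Filter Polynomial Pool.Agent.W521.Frob Pool.Agent.W521.Descent Pool.Agent.W521.Density
  Pool.Agent.W521.Count Pool.Agent.W521.Turan Pool.Agent.W521.Sieve Pool.Agent.W521.Bad
  Pool.Agent.W521.Total Pool.Agent.W484.TB Pool.Agent.N578.LB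

open Classical in
/-- the sets of `V_EVM` -/
noncomputable def evM (hE : V_EVM) {I : Type} [Fintype I] [DecidableEq I] (g : I → ℕ)
    (hg : ∀ i, 0 < g i) (Q : I → ℕ) (i₀ : I) (l : ℕ) : Finset ((Σ i, Fin (g i)) → ZMod l) :=
  if h : l.Prime ∧ (∀ i, 4 * g i + 12 ≤ l) ∧ ∀ i, ¬ l ∣ Q i then
    (haveI := Fact.mk h.1; (hE g hg Q i₀ l h.2.1 h.2.2).choose) else ∅

theorem evM_spec (hE : V_EVM) {I : Type} [Fintype I] [DecidableEq I] (g : I → ℕ)
    (hg : ∀ i, 0 < g i) (Q : I → ℕ) (i₀ : I) (l : ℕ) (h1 : l.Prime) (h2 : ∀ i, 4 * g i + 12 ≤ l)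
    (h3 : ∀ i, ¬ l ∣ Q i) :
    l ^ (∑ i, g i) ≤ (∏ i, 4 ^ g i * (g i).factorial) * (evM hE g hg Q i₀ l).card ∧
      ∀ x : (Σ i, Fin (g i)) → ℤ, red l x ∈ evM hE g hg Q i₀ l →
        FlipPatternM Q (polys g x) i₀ l := by
  have : Fact l.Prime := ⟨h1⟩
  have h : evM hE g hg Q i₀ l = (hE g hg Q i₀ l h2 h3).choose := by
    unfold evM
    rw [dif_pos ⟨h1, h2, h3⟩]
  rw [h]
  exact (hE g hg Q i₀ l h2 h3).choose_spec

theorem evM_cond (hE : V_EVM) {I : Type} [Fintype I] [DecidableEq I] (g : I → ℕ)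
    (hg : ∀ i, 0 < g i) (Q : I → ℕ) (i₀ : I) (l : ℕ) (y : (Σ i, Fin (g i)) → ZMod l)
    (hy : y ∈ evM hE g hg Q i₀ l) :
    l.Prime ∧ (∀ i, 4 * g i + 12 ≤ l) ∧ ∀ i, ¬ l ∣ Q i := by
  by_contra h
  unfold evM at hy
  rw [dif_neg h] at hy
  exact Finset.notMem_empty _ hy

theorem ltm (hE : V_EVM) : V_LTM := by
  classical
  intro I _ _ g w U hU hg
  have hcardι : Fintype.card (Σ i, Fin (g i)) = ∑ i, g i := by
    rw [Fintype.card_sigma]
    simp
  obtain ⟨cF, hcF⟩ : ∃ cF : ℝ, cF = 1 / (∏ i, 4 ^ g i * (g i).factorial : ℕ) := ⟨_, rfl⟩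
  obtain ⟨cI, hcI⟩ : ∃ cI : ℝ, cI = 1 / (∏ i, 2 * g i : ℕ) := ⟨_, rfl⟩
  have hcFpos : 0 < cF := by
    have : 0 < (∏ i, 4 ^ g i * (g i).factorial : ℕ) :=
      Finset.prod_pos fun i _ => by positivity
    rw [hcF]
    positivity
  have hcIpos : 0 < cI := by
    have : 0 < (∏ i, 2 * g i : ℕ) := Finset.prod_pos fun i _ => by have := hg i; positivity
    rw [hcI]
    positivity
  obtain ⟨l₀, hl₀⟩ : ∃ l₀ : ℕ, l₀ = ∑ i, (4 * g i + 12) + 3 := ⟨_, rfl⟩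
  have hl₀' : ∀ i l, l₀ ≤ l → 4 * g i + 12 ≤ l := by
    intro i l hl
    have := Finset.single_le_sum (f := fun i => 4 * g i + 12) (fun j _ => Nat.zero_le _)
      (Finset.mem_univ i)
    omega
  obtain ⟨CF, hCF, hF⟩ := sieve U hU (Fintype.card (Σ i, Fin (g i))) cF hcFpos l₀
  obtain ⟨CI, hCI, hI⟩ := sieve U hU (Fintype.card (Σ i, Fin (g i))) cI hcIpos l₀
  refine ⟨(∑ i : I, (CF + CI)) + 1, ?_, ?_⟩
  · have : 0 ≤ ∑ i : I, (CF + CI) := Finset.sum_nonneg fun i _ => by positivity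
    linarith
  intro q hq B hB A hA hAB a lo N hN
  have hB0 : (0 : ℝ) < B := by linarith
  have hrate : 0 ≤ Real.log B * B ^ (-(1 / 3) : ℝ) := by
    have := Real.log_nonneg (show (1 : ℝ) ≤ B by linarith)
    positivity
  have hprod : (0 : ℝ) ≤ ∏ s, (N s : ℝ) := Finset.prod_nonneg fun s _ => Nat.cast_nonneg _
  obtain ⟨D, hD⟩ : ∃ D : ℕ, D = q * A.det.natAbs := ⟨_, rfl⟩
  have hD0 : D ≠ 0 := by
    rw [hD]
    exact mul_ne_zero hq.ne_zero (Int.natAbs_ne_zero.2 hA)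
  have hDB : (D.primeFactors.card : ℝ) ≤ 2 * B ^ (1 / 4 : ℝ) := by
    rw [hD]
    have h1 := primeFactors_card hq A.det.natAbs
    have h2 : (1 : ℝ) ≤ B ^ (1 / 4 : ℝ) := Real.one_le_rpow (by linarith) (by norm_num)
    linarith
  have hDq : ∀ l : ℕ, l.Prime → ¬ l ∣ D → ∀ i, ¬ l ∣ q ^ w i := fun l hl h1 i h2 =>
    h1 (by rw [hD]; exact (hl.dvd_of_dvd_pow h2).mul_right _)
  have hDA : ∀ l : ℕ, ¬ l ∣ D → ¬ l ∣ A.det.natAbs := fun l h1 h2 => h1 (by rw [hD]; exact h2.mul_left _)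
  let ev : I → ∀ l : ℕ, Finset ((Σ i, Fin (g i)) → ZMod l) := fun i l =>
    evM hE g hg (fun i => q ^ w i) i l
  let ZF : I → Finset ((Σ i, Fin (g i)) → ℤ) := fun i => (box lo N).filter
    (fun x => ∀ l : ℕ, l.Prime → l ∈ U → l₀ ≤ l → ¬ l ∣ D → red l x ∉ pull A a (ev i) l)
  let ZI : I → Finset ((Σ i, Fin (g i)) → ℤ) := fun i => (box lo N).filter
    (fun x => ∀ l : ℕ, l.Prime → l ∈ U → l₀ ≤ l → ¬ l ∣ D → red l x ∉ pull A a (evI g i) l)
  have hZF : ∀ i, ((ZF i).card : ℝ) ≤ CF * (Real.log B * B ^ (-(1 / 3) : ℝ)) * ∏ s, (N s : ℝ) := by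
    intro i
    refine hF D hD0 B hB hDB rfl (pull A a (ev i)) ?_ lo N hN
    intro l hl _ hl0 hlD
    have h1 := (evM_spec hE g hg (fun i => q ^ w i) i l hl (fun j => hl₀' j l hl0)
      (hDq l hl hlD)).1
    rw [card_pull A a (ev i) l hl (hDA l hlD), hcF, hcardι, one_div, inv_mul_le_iff₀ (by
      have : 0 < (∏ i, 4 ^ g i * (g i).factorial : ℕ) :=
        Finset.prod_pos fun i _ => by positivity
      exact_mod_cast this)]
    exact_mod_cast h1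
  have hZI : ∀ i, ((ZI i).card : ℝ) ≤ CI * (Real.log B * B ^ (-(1 / 3) : ℝ)) * ∏ s, (N s : ℝ) := by
    intro i
    refine hI D hD0 B hB hDB rfl (pull A a (evI g i)) ?_ lo N hN
    intro l hl _ hl0 hlD
    have : Fact l.Prime := ⟨hl⟩
    have h1 := irrEvent_lower g hg i l (by omega)
    have h2 : evI g i l = irrEvent g i l := by
      unfold evI
      rw [dif_pos hl]
    rw [card_pull A a (evI g i) l hl (hDA l hlD), h2, hcI, hcardι, one_div, inv_mul_le_iff₀ (by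
      have : 0 < (∏ i, 2 * g i : ℕ) := Finset.prod_pos fun i _ => by have := hg i; positivity
      exact_mod_cast this)]
    exact_mod_cast h1
  let Fb : Finset ((Σ i, Fin (g i)) → ℤ) := (box lo N).filter (fun y =>
    (∀ i, ¬ ((q ^ w i : ℕ) : ℤ) ∣ (polys g (aff A a y) i).nextCoeff ^ 2) ∧
      ¬ GoodM U g (fun i => q ^ w i) (aff A a y))
  have hset : {y : (Σ i, Fin (g i)) → ℤ | y ∈ box lo N ∧
      (∀ i, ¬ ((q ^ w i : ℕ) : ℤ) ∣ (polys g (aff A a y) i).nextCoeff ^ 2) ∧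
      ¬ GoodM U g (fun i => q ^ w i) (aff A a y)} = (Fb : Set ((Σ i, Fin (g i)) → ℤ)) := by
    ext y
    rw [Finset.mem_coe, Finset.mem_filter]
    exact Iff.rfl
  rw [hset, Set.ncard_coe_finset]
  have hsub : Fb ⊆ Finset.univ.biUnion (fun i => ZF i ∪ ZI i) := by
    intro x hx
    obtain ⟨h1, hS, h2⟩ := Finset.mem_filter.1 hx
    by_contra h3
    apply h2
    have h4 : ∀ i, x ∉ ZF i ∧ x ∉ ZI i := by
      intro i
      have h5 : x ∉ ZF i ∪ ZI i := fun h6 =>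
        h3 (Finset.mem_biUnion.2 ⟨i, Finset.mem_univ i, h6⟩)
      rw [Finset.mem_union] at h5
      exact ⟨fun h => h5 (Or.inl h), fun h => h5 (Or.inr h)⟩
    refine ⟨fun i => ?_, fun i => ?_, hS⟩
    · by_contra hcon
      refine (h4 i).1 (Finset.mem_filter.2 ⟨h1, fun l e1 e2 e3 e4 e5 => hcon ?_⟩)
      have e6 := (mem_pull A a _ l e1 x).1 e5
      exact ⟨l, e1, by omega, hDq l e1 e4, e2,
        (evM_spec hE g hg (fun i => q ^ w i) i l e1 (fun j => hl₀' j l e3)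
          (hDq l e1 e4)).2 _ e6⟩
    · exact irr_of_not g (l₀ := l₀) (q := q)
        (fun h => (h4 i).2 (Finset.mem_filter.2 ⟨h1, fun l e1 e2 e3 e4 e5 =>
          h l e1 e3 (fun e6 => e4 (by rw [hD]; exact e6.mul_right _))
            ((mem_pull A a _ l e1 x).1 e5)⟩))
  have hcard : (Fb.card : ℝ) ≤ ∑ i, (((ZF i).card : ℝ) + (ZI i).card) := by
    have h1 := Finset.card_le_card hsub
    have h2 := h1.trans (Finset.card_biUnion_le)
    have h3 : ∑ i, (ZF i ∪ ZI i).card ≤ ∑ i, ((ZF i).card + (ZI i).card) :=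
      Finset.sum_le_sum fun i _ => Finset.card_union_le _ _
    exact_mod_cast h2.trans h3
  calc (Fb.card : ℝ) ≤ ∑ i, (((ZF i).card : ℝ) + (ZI i).card) := hcard
    _ ≤ ∑ i : I, ((CF + CI) * (Real.log B * B ^ (-(1 / 3) : ℝ)) * ∏ s, (N s : ℝ)) := by
        refine Finset.sum_le_sum fun i _ => ?_
        have h1 := hZF i
        have h2 := hZI i
        have h4 : (CF + CI) * (Real.log B * B ^ (-(1 / 3) : ℝ)) * ∏ s, (N s : ℝ) =
          CF * (Real.log B * B ^ (-(1 / 3) : ℝ)) * ∏ s, (N s : ℝ) +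
          CI * (Real.log B * B ^ (-(1 / 3) : ℝ)) * ∏ s, (N s : ℝ) := by ring
        rw [h4]
        linarith
    _ = (∑ i : I, (CF + CI)) * (Real.log B * B ^ (-(1 / 3) : ℝ)) * ∏ s, (N s : ℝ) := by
        rw [← Finset.sum_mul, ← Finset.sum_mul]
    _ ≤ ((∑ i : I, (CF + CI)) + 1) * (Real.log B * B ^ (-(1 / 3) : ℝ)) * ∏ s, (N s : ℝ) := by
        refine mul_le_mul_of_nonneg_right ?_ hprod
        refine mul_le_mul_of_nonneg_right ?_ hrate
        linarith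

end Pool.Agent.T2h14.HT
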