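import Mathlib
import Pool.Agent.T2h14.HT.Stm2
import Pool.Agent.W484.TB.RankOver

/-!
# HT/NSM (helper51): the roots of one polynomial and numbers of small rank
-/

set_option autoImplicit false
set_option linter.unusedSectionVars false

namespace Pool.Agent.T2h14.HT

open Polynomial Pool.Agent.W521.Frob Pool.Agent.W521.Criterion Pool.Agent.W484.BB
  IntermediateField Module Pool.Agent.W484.AA Pool.Agent.W484.TB

theorem nsm : V_NSM := by
  classical
  intro I Q h hq hm L _ _ _ j hL E _ _ i₀ hirr hfl hss r hr u hu0 hU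
  have hQ : Q i₀ ≠ 0 := hq i₀
  have hm1 : ∀ i : Unit, ((fun _ : Unit => h i₀) i).Monic := fun _ => hm i₀
  have hL1 : ∀ i : Unit, ∀ z : ℂ, aeval z (weil (Q i₀) ((fun _ : Unit => h i₀) i)) = 0 →
      ∃ x : L, j x = z := fun _ => hL i₀
  have hqL : (Q i₀ : L) ≠ 0 := by exact_mod_cast hQ
  have hqC : (Q i₀ : ℂ) ≠ 0 := by exact_mod_cast hQ
  -- the real roots
  have hsplit := splits_h hQ hm1 L j hL1 ()
  have hsep : ((h i₀).map (algebraMap ℤ L)).Separable := by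
    have h1 := hirr.separable
    have h2 := h1.map (f := algebraMap ℚ L)
    rwa [Polynomial.map_map, RingHom.ext_int ((algebraMap ℚ L).comp (Int.castRingHom ℚ))
      (algebraMap ℤ L)] at h2
  set Θ : Finset L := ((h i₀).map (algebraMap ℤ L)).roots.toFinset with hΘ
  have hΘcard : Θ.card = (h i₀).natDegree := by
    rw [hΘ, Multiset.toFinset_card_of_nodup (nodup_roots hsep), ← hsplit.natDegree_eq_card_roots,
      (hm i₀).natDegree_map]
  have hΘroot : ∀ θ ∈ Θ, aeval θ (h i₀) = 0 := by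
    intro θ hθ
    have h1 := (mem_roots'.1 (Multiset.mem_toFinset.1 hθ)).2
    rw [IsRoot.def, eval_map] at h1
    exact h1
  have hex : ∀ θ : Θ, ∃ α : L, α ^ 2 + Q i₀ = θ * α :=
    fun θ => quad_L hQ hm1 L j hL1 () θ (hΘroot θ θ.2)
  choose α hα using hex
  have hroot : ∀ θ : Θ, aeval (α θ) (weil (Q i₀) (h i₀)) = 0 := by
    intro θ
    rw [aeval_weil (Q i₀) (h i₀) (α θ) θ (hα θ), hΘroot θ θ.2, mul_zero]
  have hα0 : ∀ θ : Θ, α θ ≠ 0 := fun θ => root_ne_zero hQ (hm i₀) (hroot θ)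
  have hαθ : ∀ θ : Θ, α θ + Q i₀ / α θ = θ := by
    intro θ
    have := hα0 θ
    have h2 := hα θ
    field_simp
    linear_combination h2
  choose M e m hM he0 hMe using fun θ : Θ => hU (α θ) (hroot θ)
  obtain ⟨b, hb0, hb⟩ := exists_int_relation r (by
    rw [Fintype.card_coe, hΘcard]
    exact hr) m
  obtain ⟨θ₀, hθ₀⟩ : ∃ θ, b θ ≠ 0 := by
    by_contra hall0
    push Not at hall0
    exact hb0 (funext hall0)
  -- the relation between the roots of one polynomial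
  have hC : ∏ θ, ((j (α θ) ^ 2) ^ M θ) ^ b θ = j (algebraMap E L (∏ θ, e θ ^ b θ)) := by
    have h1 : ∀ θ, ((j (α θ) ^ 2) ^ M θ) ^ b θ = j (algebraMap E L (e θ ^ b θ)) *
        ∏ t, u t ^ (b θ * m θ t) := by
      intro θ
      rw [hMe θ, mul_zpow, map_zpow₀, map_zpow₀, ← Finset.prod_zpow]
      congr 1
      refine Finset.prod_congr rfl fun t _ => ?_
      rw [← zpow_mul, mul_comm (m θ t)]
    rw [Finset.prod_congr rfl fun θ _ => h1 θ, Finset.prod_mul_distrib, Finset.prod_comm, map_prod,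
      map_prod]
    have h2 : ∏ t, ∏ θ, u t ^ (b θ * m θ t) = 1 := by
      refine Finset.prod_eq_one fun t _ => ?_
      have h3 : ∏ θ, u t ^ (b θ * m θ t) = u t ^ (∑ θ, b θ * m θ t) := by
        have h4 : ∀ S : Finset Θ, ∏ θ ∈ S, u t ^ (b θ * m θ t) = u t ^ (∑ θ ∈ S, b θ * m θ t) := by
          intro S
          induction S using Finset.induction_on with
          | empty => simp
          | insert θ S hθ ih => rw [Finset.prod_insert hθ, Finset.sum_insert hθ, ih,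
              zpow_add₀ (hu0 t)]
        exact h4 _
      rw [h3, hb t, zpow_zero]
    rw [h2, mul_one]
  have hCL : ∏ θ, ((α θ ^ 2) ^ M θ) ^ b θ = algebraMap E L (∏ θ, e θ ^ b θ) := by
    apply j.injective
    rw [← hC, map_prod]
    refine Finset.prod_congr rfl fun θ _ => ?_
    rw [map_zpow₀, map_pow, map_pow]
  obtain ⟨σ, hσE, h1, -, h3⟩ := hfl (α θ₀) (hroot θ₀)
  have h4 : ∀ θ, θ ≠ θ₀ → σ (α θ) = α θ := by
    intro θ hθ
    refine h3 i₀ (α θ) (hroot θ) fun _ => ⟨?_, ?_⟩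
    · intro h5
      apply hθ
      apply Subtype.ext
      rw [← hαθ, ← hαθ, h5]
    · intro h5
      apply hθ
      apply Subtype.ext
      rw [← hαθ, ← hαθ θ₀, h5, div_div_cancel₀ hqL, add_comm]
  have h5 := congrArg σ hCL
  rw [map_prod, hσE, ← hCL] at h5
  rw [← Finset.mul_prod_erase _ _ (Finset.mem_univ θ₀),
    ← Finset.mul_prod_erase _ (fun θ => ((α θ ^ 2) ^ M θ) ^ b θ) (Finset.mem_univ θ₀)] at h5
  have h6 : ∏ θ ∈ Finset.univ.erase θ₀, σ (((α θ ^ 2) ^ M θ) ^ b θ) =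
      ∏ θ ∈ Finset.univ.erase θ₀, ((α θ ^ 2) ^ M θ) ^ b θ := by
    refine Finset.prod_congr rfl fun θ hθ => ?_
    rw [map_zpow₀, map_pow, map_pow, h4 θ (Finset.ne_of_mem_erase hθ)]
  rw [h6] at h5
  have h7 : ∏ θ ∈ Finset.univ.erase θ₀, ((α θ ^ 2) ^ M θ) ^ b θ ≠ 0 :=
    Finset.prod_ne_zero_iff.2 fun θ _ => zpow_ne_zero _ (pow_ne_zero _ (pow_ne_zero _ (hα0 θ)))
  have h8 := mul_right_cancel₀ h7 h5
  rw [map_zpow₀, map_pow, map_pow, h1] at h8
  -- conclusion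
  have h9 : ((α θ₀ ^ 2) ^ (2 * M θ₀)) ^ b θ₀ = ((Q i₀ : L) ^ (2 * M θ₀)) ^ b θ₀ := by
    have hα2 : (α θ₀ ^ 2) ^ M θ₀ ≠ 0 := pow_ne_zero _ (pow_ne_zero _ (hα0 θ₀))
    have h10 : ((((Q i₀ : L) / α θ₀) ^ 2) ^ M θ₀) ^ b θ₀ * ((α θ₀ ^ 2) ^ M θ₀) ^ b θ₀ =
        ((Q i₀ : L) ^ (2 * M θ₀)) ^ b θ₀ := by
      rw [← mul_zpow, ← mul_pow, ← mul_pow, div_mul_cancel₀ _ (hα0 θ₀), ← pow_mul]
    rw [← h10, h8, ← mul_zpow, ← pow_add]
    congr 2
    ring
  have h10 : ∃ t : ℕ, 0 < t ∧ (α θ₀ ^ 2) ^ t = (Q i₀ : L) ^ t := by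
    refine ⟨2 * M θ₀ * (b θ₀).natAbs, Nat.mul_pos (Nat.mul_pos two_pos (hM θ₀))
      (Int.natAbs_pos.2 hθ₀), ?_⟩
    rw [pow_mul, pow_mul (Q i₀ : L)]
    rcases Int.natAbs_eq (b θ₀) with h11 | h11
    · rw [h11, zpow_natCast, zpow_natCast] at h9
      exact h9
    · rw [h11, zpow_neg, zpow_neg, zpow_natCast, zpow_natCast] at h9
      exact inv_injective h9
  obtain ⟨t, ht, hαt⟩ := h10
  exact hss (dvd_of_root_of_unity hQ hm1 L j hL1 () hirr (α θ₀) (hroot θ₀) t ht hαt)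

end Pool.Agent.T2h14.HT
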