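import Mathlib
import Pool.Agent.T2h14.HT.Stm

/-!
# PRD: the product of the side lengths of the box
-/

set_option autoImplicit false

namespace Pool.Agent.T2h14.HT

open Polynomial Pool.Agent.W521.Frob Pool.Agent.W521.Descent Pool.Agent.W521.Density
  Pool.Agent.W521.Count

/-- Reversing the order of the factors. -/
theorem prod_fin_reflect (n : ℕ) (F : ℕ → ℝ) :
    ∏ k : Fin n, F (n - (k : ℕ)) = ∏ j ∈ Finset.Icc 1 n, F j := by
  rw [Fin.prod_univ_eq_prod_range (fun k => F (n - k)) n]
  refine Finset.prod_nbij' (fun k => n - k) (fun j => n - j) ?_ ?_ ?_ ?_ ?_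
  · intro k hk
    rw [Finset.mem_range] at hk
    rw [Finset.mem_Icc]
    omega
  · intro j hj
    rw [Finset.mem_Icc] at hj
    rw [Finset.mem_range]
    omega
  · intro k hk
    rw [Finset.mem_range] at hk
    omega
  · intro j hj
    rw [Finset.mem_Icc] at hj
    omega
  · intro k _
    rfl

theorem prd (hL : V_LEN) : V_PRD := by
  intro I _ g w m e he q hq
  calc ∏ s, (2 * (bb g e q w s : ℝ) + 1)
      ≤ ∏ s : (Σ i, Fin (g i)), 3 * 4 ^ g s.1 *
        Real.sqrt q ^ (w * (g s.1 - s.2) - 2 * e s.1 (g s.1 - s.2)) := by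
        refine Finset.prod_le_prod (fun s _ => by positivity) fun s _ => ?_
        exact (hL g w m e he q hq s).2
    _ = (∏ i, ((3 * 4 ^ g i) ^ g i : ℝ)) * ∏ i, size q w (g i) (e i) := by
        rw [Fintype.prod_sigma, ← Finset.prod_mul_distrib]
        refine Finset.prod_congr rfl fun i _ => ?_
        dsimp only
        rw [Finset.prod_mul_distrib, Finset.prod_const, Finset.card_univ, Fintype.card_fin,
          prod_fin_reflect (g i) (fun j => Real.sqrt q ^ (w * j - 2 * e i j))]
        rfl

end Pool.Agent.T2h14.HT
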