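import Mathlib
import Pool.Agent.T2h14.HT.Stm2
import Pool.Agent.T2h14.HT.PRD

/-!
# PDM: the product of the side lengths of the box, for several weights
-/

set_option autoImplicit false

namespace Pool.Agent.T2h14.HT

open Polynomial Pool.Agent.W521.Frob Pool.Agent.W521.Descent Pool.Agent.W521.Density
  Pool.Agent.W521.Count

theorem pdm (hL : V_LNM) : V_PDM := by
  intro I _ g w m e he q hq
  calc ∏ s, (2 * (bbM g w e q s : ℝ) + 1)
      ≤ ∏ s : (Σ i, Fin (g i)), 3 * 4 ^ g s.1 *
        Real.sqrt q ^ (w s.1 * (g s.1 - s.2) - 2 * e s.1 (g s.1 - s.2)) := by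
        refine Finset.prod_le_prod (fun s _ => by positivity) fun s _ => ?_
        exact (hL g w m e he q hq s).2
    _ = (∏ i, ((3 * 4 ^ g i) ^ g i : ℝ)) * ∏ i, size q (w i) (g i) (e i) := by
        rw [Fintype.prod_sigma, ← Finset.prod_mul_distrib]
        refine Finset.prod_congr rfl fun i _ => ?_
        dsimp only
        rw [Finset.prod_mul_distrib, Finset.prod_const, Finset.card_univ, Fintype.card_fin,
          prod_fin_reflect (g i) (fun j => Real.sqrt q ^ (w i * j - 2 * e i j))]
        rfl

end Pool.Agent.T2h14.HT
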