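import Mathlib
import Pool.Agent.T2h14.HT.Stm2

/-!
# RLM: the relations over a number field, for several weights
-/

set_option autoImplicit false

namespace Pool.Agent.T2h14.HT

open Polynomial Pool.Agent.W521.Frob Pool.Agent.W521.Descent Pool.Agent.W521.Density
  Pool.Agent.W521.Count Pool.Agent.W484.TB

theorem rlm (hN : V_NRM) : V_RLM := by
  intro I _ g E _ q w hq r hr x hx χ hχ hrank ρ hρ s hs n hn c N hN' i z hz hrel
  by_contra hcon
  push Not at hcon
  obtain ⟨hpat, hirr, hss⟩ := hx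
  have hm : ∀ i, (polys g x i).Monic := fun i => mkPoly_monic (g i) _
  obtain ⟨u, hu0, hu⟩ := hrank
  have hρ0 : ρ ≠ 0 := by
    intro h0
    obtain ⟨N, y, m, hN, hyE, hy0, h2⟩ := hu ρ hρ
    rw [h0, zero_pow hN.ne'] at h2
    exact mul_ne_zero hy0 (Finset.prod_ne_zero_iff.2 fun t _ => zpow_ne_zero _ (hu0 t)) h2.symm
  refine hN q w (fun i => polys g x i) hq hm hirr (gal E) (algebraMap (gal E) ℂ) ?_ hss r ?_ χ hχ u hu0
    (fun ρ hρ => ?_) ρ hρ hρ0 s hs hn c N hN' i z hz hrel ?_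
  · intro i
    obtain ⟨l, h1, h2, h3, h4, h5⟩ := hpat i
    exact ⟨l, h1, h2, h3, h4, h5⟩
  · intro i
    have h1 : (polys g x i).natDegree = g i := mkPoly_natDegree (g i) _
    show r < (polys g x i).natDegree
    rw [h1]
    exact hr i
  · obtain ⟨N, y, m, hN, hyE, hy0, h2⟩ := hu ρ hρ
    refine ⟨N, ⟨y, le_gal E hyE⟩, m, hN, ?_, h2⟩
    intro h
    exact hy0 (congrArg Subtype.val h)
  · intro k l hkl hil
    exact hcon k l hkl hil

end Pool.Agent.T2h14.HT
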