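import Pool.Agent.T2h14.HT.Stm

/-!
# Weil polynomials of Hodge type: multiples whose square is divisible by `q ^ w` (SQC)
-/

set_option autoImplicit false

namespace Pool.Agent.T2h14.HT

open Polynomial Pool.Agent.W521.Frob Pool.Agent.W521.Descent Pool.Agent.W521.Density
  Pool.Agent.W521.Count

theorem sqc : V_SQC := by
  intro q w n b K hq hn hb
  obtain ⟨M, hM1, hM2⟩ : ∃ m : ℕ, q ^ w ≤ m ^ 2 ∧
      ∀ t : ℤ, ((q ^ w : ℕ) : ℤ) ∣ t ^ 2 → (m : ℤ) ∣ t := by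
    rcases Nat.eq_zero_or_pos w with h | h
    · subst h
      exact ⟨1, by simp, fun t _ => by simp⟩
    · exact Pool.Agent.N578.LB.sq_dvd (hq.pow h.ne')
  have hM0 : 0 < M := by
    rcases Nat.eq_zero_or_pos M with h | h
    · rw [h] at hM1
      have := Nat.pow_pos (n := w) hq.pos
      omega
    · exact h
  have hb2 : b ≤ K * M := by
    have h1 : Real.sqrt (q ^ w : ℕ) ≤ M := by
      rw [Real.sqrt_le_left (by positivity)]
      exact_mod_cast hM1
    have h2 : (b : ℝ) ≤ K * M := hb.trans (mul_le_mul_of_nonneg_left h1 (by positivity))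
    exact_mod_cast h2
  have key : ∀ y ∈ {y : ℤ | |y| ≤ ((b / n : ℕ) : ℤ) ∧ ((q ^ w : ℕ) : ℤ) ∣ ((n : ℤ) * y) ^ 2},
      ((n : ℤ) * y) / M ∈ ((Finset.Icc (-(K : ℤ)) K : Finset ℤ) : Set ℤ) := by
    rintro y ⟨hy1, hy2⟩
    obtain ⟨c, hc⟩ := hM2 _ hy2
    rw [hc, Int.mul_ediv_cancel_left _ (by exact_mod_cast hM0.ne')]
    have h1 : |(n : ℤ) * y| ≤ b := by
      rw [abs_mul, Nat.abs_cast]
      calc (n : ℤ) * |y| ≤ n * ((b / n : ℕ) : ℤ) := mul_le_mul_of_nonneg_left hy1 (by positivity)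
        _ ≤ b := by exact_mod_cast Nat.mul_div_le b n
    have h2 : (M : ℤ) * |c| ≤ M * K := by
      rw [hc, abs_mul, Nat.abs_cast] at h1
      have : (b : ℤ) ≤ K * M := by exact_mod_cast hb2
      linarith [mul_comm (K : ℤ) M]
    have h3 : |c| ≤ K := le_of_mul_le_mul_left h2 (by exact_mod_cast hM0)
    simpa using abs_le.1 h3
  have hinj : Set.InjOn (fun y : ℤ => ((n : ℤ) * y) / M)
      {y : ℤ | |y| ≤ ((b / n : ℕ) : ℤ) ∧ ((q ^ w : ℕ) : ℤ) ∣ ((n : ℤ) * y) ^ 2} := by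
    rintro y ⟨_, hy2⟩ y' ⟨_, hy2'⟩ h
    have h1 := Int.mul_ediv_cancel' (hM2 _ hy2)
    have h2 := Int.mul_ediv_cancel' (hM2 _ hy2')
    have h3 : (n : ℤ) * y = n * y' := by
      rw [← h1, ← h2]
      exact congrArg _ h
    exact mul_left_cancel₀ (by exact_mod_cast hn.ne') h3
  have h1 := Set.ncard_le_ncard_of_injOn _ key hinj (Finset.finite_toSet _)
  rw [Set.ncard_coe_finset, Int.card_Icc] at h1
  omega

end Pool.Agent.T2h14.HT
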