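import Mathlib
import Pool.Agent.T2h14.HT.Stm

/-!
# UPB: the upper bound for the number of polynomials
-/

set_option autoImplicit false

namespace Pool.Agent.T2h14.HT

open Polynomial Pool.Agent.W521.Frob Pool.Agent.W521.Descent Pool.Agent.W521.Density
  Pool.Agent.W521.Count

/-- The number of points of the box. -/
theorem card_ybox {I : Type} [Fintype I] [DecidableEq I] (g : I → ℕ) (e : I → ℕ → ℕ) (q w : ℕ) :
    ((ybox g e q w).card : ℝ) = ∏ s, (2 * (bb g e q w s : ℝ) + 1) := by
  unfold ybox
  rw [Fintype.card_piFinset, Nat.cast_prod]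
  refine Finset.prod_congr rfl fun s _ => ?_
  rw [Int.card_Icc]
  have h : ((bb g e q w s : ℤ) + 1 - -(bb g e q w s : ℤ)).toNat = 2 * bb g e q w s + 1 := by
    omega
  rw [h]
  push_cast
  ring

theorem upb (hB : V_BOX) (hP : V_PRD) : V_UPB := by
  intro w g m e he q hq
  have h1 := hP (I := Unit) (fun _ => g) w m (fun _ => e) (fun _ => he) q hq
  rw [← card_ybox, Fintype.prod_unique, Fintype.prod_unique] at h1
  refine le_trans ?_ h1
  have h2 : latticeWeil q w g e ⊆
      (fun y => weil (q ^ w) (polys (fun _ : Unit => g) (pt (fun _ => g) (fun _ => e) q y) ())) ''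
        (ybox (fun _ : Unit => g) (fun _ => e) q w : Set _) := by
    intro f hf
    obtain ⟨y, hy, hfy⟩ := hB (I := Unit) (fun _ => g) w m (fun _ => e) (fun _ => he) q hq
      (fun _ => f) (fun _ => hf)
    exact ⟨y, Finset.mem_coe.2 hy, (hfy ()).symm⟩
  have h3 : (latticeWeil q w g e).ncard ≤ (ybox (fun _ : Unit => g) (fun _ => e) q w).card := by
    refine (Set.ncard_le_ncard h2 ((Finset.finite_toSet _).image _)).trans ?_
    refine (Set.ncard_image_le (Finset.finite_toSet _)).trans ?_
    rw [Set.ncard_coe_finset]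
  exact_mod_cast h3

end Pool.Agent.T2h14.HT
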