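import Mathlib
import Pool.Agent.T2h14.HT.HPA
import Pool.Agent.T2h14.HT.CF
import Pool.Agent.T2h14.HT.DIV
import Pool.Agent.T2h14.HT.INT
import Pool.Agent.T2h14.HT.LOA
import Pool.Agent.T2h14.HT.LOB
import Pool.Agent.T2h14.HT.BOX
import Pool.Agent.T2h14.HT.LEN
import Pool.Agent.T2h14.HT.PRD
import Pool.Agent.T2h14.HT.SQC
import Pool.Agent.T2h14.HT.UPB
import Pool.Agent.T2h14.HT.BXM
import Pool.Agent.T2h14.HT.LNM
import Pool.Agent.T2h14.HT.PDM
import Pool.Agent.T2h14.HT.DAM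
import Pool.Agent.T2h14.HT.DBM
import Pool.Agent.T2h14.HT.ADM
import Pool.Agent.T2h14.HT.EVM
import Pool.Agent.T2h14.HT.LTM
import Pool.Agent.T2h14.HT.FLM
import Pool.Agent.T2h14.HT.FOM
import Pool.Agent.T2h14.HT.NSM
import Pool.Agent.T2h14.HT.NRM
import Pool.Agent.T2h14.HT.RLM
import Pool.Agent.T2h14.HT.FNM

/-!
# Almost all Weil polynomials of every Hodge type have no relations
-/

set_option autoImplicit false

namespace Pool.Agent.T2h14.HT

open Polynomial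

theorem all : V_FNM :=
  have hDIV : V_DIV := div cf
  have hLEN : V_LEN := len
  have hLNM : V_LNM := lnm hLEN
  have hBOX : V_BOX := box hDIV
  have hLOA : V_LOA := loa hDIV int
  fnm hpa (lob hLOA hDIV)
    (adm (bxm hDIV) (pdm hLNM) (dam (ltm evm) hLNM) (dbm sqc hLNM))
    (upb hBOX (prd hLEN)) (rlm (nrm (fom flm) nsm))

/-- The count of the exceptions. -/
theorem main {I : Type} [Fintype I] (w g : I → ℕ) (m r : ℕ) (h : I → ℕ → ℕ) (hm : 0 < m)
    (hr : ∀ i, r < g i) (hh : ∀ i, HodgeNumbers (w i) (g i) m (h i)) (E : IntermediateField ℚ ℂ)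
    [FiniteDimensional ℚ E] : ∃ C c : ℝ, 0 < c ∧ ∀ q : ℕ, IsPrimePow q →
      (∀ i, (hodgeWeilPolys q (w i) (g i) (h i)).Finite ∧
        c * hodgeSize q (w i) (g i) (h i) ≤ (hodgeWeilPolys q (w i) (g i) (h i)).ncard ∧
        ((hodgeWeilPolys q (w i) (g i) (h i)).ncard : ℝ) ≤ C * hodgeSize q (w i) (g i) (h i)) ∧
      ({f : I → ℤ[X] | (∀ i, f i ∈ hodgeWeilPolys q (w i) (g i) (h i)) ∧
        ¬ Pool.Agent.T2h14.PW.Stm.NoRelations E q r w f}.ncard : ℝ) ≤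
        C * (Real.log q * (q : ℝ) ^ (-((m : ℝ) / 6))) *
          ∏ i, ((hodgeWeilPolys q (w i) (g i) (h i)).ncard : ℝ) :=
  all w g m r h hm hr hh E

end Pool.Agent.T2h14.HT
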