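import Mathlib
import Pool.Agent.T2h14.HT.Main

/-!
# Almost all Weil polynomials of every Hodge type: consequences of `NoRelations`
-/

set_option autoImplicit false

namespace Pool.Agent.T2h14.HT

open Polynomial Pool.Agent.T2h14.PW.Stm

/-- The count of the exceptions, for a consequence `P` of `NoRelations`. -/
theorem mainP {I : Type} [Fintype I] (w g : I → ℕ) (m r : ℕ) (h : I → ℕ → ℕ) (hm : 0 < m)
    (hr : ∀ i, r < g i) (hh : ∀ i, HodgeNumbers (w i) (g i) m (h i)) (E : IntermediateField ℚ ℂ)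
    [FiniteDimensional ℚ E] (P : ℕ → (I → ℤ[X]) → Prop)
    (hP : ∀ q, 1 < q → ∀ f : I → ℤ[X], (∀ i, (f i).Monic) → NoRelations E q r w f → P q f) :
    ∃ C c : ℝ, 0 < c ∧ ∀ q : ℕ, IsPrimePow q →
      (∀ i, (hodgeWeilPolys q (w i) (g i) (h i)).Finite ∧
        c * hodgeSize q (w i) (g i) (h i) ≤ (hodgeWeilPolys q (w i) (g i) (h i)).ncard ∧
        ((hodgeWeilPolys q (w i) (g i) (h i)).ncard : ℝ) ≤ C * hodgeSize q (w i) (g i) (h i)) ∧
      ({f : I → ℤ[X] | (∀ i, f i ∈ hodgeWeilPolys q (w i) (g i) (h i)) ∧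
        ¬ (NoRelations E q r w f ∧ P q f)}.ncard : ℝ) ≤
        C * (Real.log q * (q : ℝ) ^ (-((m : ℝ) / 6))) *
          ∏ i, ((hodgeWeilPolys q (w i) (g i) (h i)).ncard : ℝ) := by
  obtain ⟨C, c, hc, hmain⟩ := Pool.Agent.T2h14.HT.main w g m r h hm hr hh E
  refine ⟨C, c, hc, fun q hq => ⟨(hmain q hq).1, ?_⟩⟩
  have heq : {f : I → ℤ[X] | (∀ i, f i ∈ hodgeWeilPolys q (w i) (g i) (h i)) ∧
      ¬ (NoRelations E q r w f ∧ P q f)} =
      {f : I → ℤ[X] | (∀ i, f i ∈ hodgeWeilPolys q (w i) (g i) (h i)) ∧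
      ¬ NoRelations E q r w f} := by
    ext f
    constructor
    · rintro ⟨h1, h2⟩
      exact ⟨h1, fun h3 => h2 ⟨h3, hP q hq.one_lt f (fun i => (h1 i).1.1) h3⟩⟩
    · rintro ⟨h1, h2⟩
      exact ⟨h1, fun h3 => h2 h3.1⟩
  rw [heq]
  exact (hmain q hq).2

end Pool.Agent.T2h14.HT
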