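import Pool.Agent.T2h14.HT.Stm2

set_option autoImplicit false

namespace Pool.Agent.T2h14.HT

open Polynomial Pool.Agent.W521.Frob Pool.Agent.W521.Descent Pool.Agent.W521.Density
  Pool.Agent.W521.Count Pool.Agent.W484.TB

namespace DAM

theorem rate_eq (q m : ℕ) :
    Real.log (Real.sqrt q ^ m) * (Real.sqrt q ^ m) ^ (-(1 / 3) : ℝ) = m / 2 * rt q m := by
  have hq : (0 : ℝ) ≤ q := Nat.cast_nonneg q
  unfold rt
  have h1 : Real.log (Real.sqrt q ^ m) = m / 2 * Real.log q := by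
    rw [Real.log_pow, Real.log_sqrt hq]
    ring
  have h2 : (Real.sqrt q ^ m) ^ (-(1 / 3) : ℝ) = (q : ℝ) ^ (-((m : ℝ) / 6)) := by
    rw [Real.sqrt_eq_rpow, ← Real.rpow_natCast, ← Real.rpow_mul hq, ← Real.rpow_mul hq]
    congr 1
    ring
  rw [h1, h2]
  ring

end DAM

theorem dam (hT : V_LTM) (hL : V_LNM) : V_DAM := by
  intro I _ _ g w m e U hU hE
  rcases isEmpty_or_nonempty I with hI | hI
  · refine ⟨1, one_pos, fun q hq hq4 => ?_⟩
    have h0 : {y : (Σ i, Fin (g i)) → ℤ | y ∈ yboxM g w e q ∧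
        (∀ i, ¬ ((q ^ w i : ℕ) : ℤ) ∣ (polys g (pt g e q y) i).nextCoeff ^ 2) ∧
        ¬ GoodM U g (fun i => q ^ w i) (pt g e q y)} = ∅ := by
      refine Set.eq_empty_of_forall_notMem fun y hy => hy.2.2 ?_
      exact ⟨fun i => isEmptyElim i, fun i => isEmptyElim i, fun i => isEmptyElim i⟩
    rw [h0, Set.ncard_empty, Nat.cast_zero]
    have hrt : 0 ≤ rt q m := by
      unfold rt
      have : 0 ≤ Real.log q := Real.log_natCast_nonneg q
      positivity
    have hprod : (0 : ℝ) ≤ ∏ s : Σ i, Fin (g i), (2 * (bbM g w e q s : ℝ) + 1) :=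
      Finset.prod_nonneg fun s _ => by positivity
    positivity
  obtain ⟨C, hC0, hC⟩ := hT g w U hU (fun i => (hE i).pos)
  obtain ⟨i₀⟩ := hI
  have hm : 0 < m := (hE i₀).mpos
  refine ⟨C * (m / 2), by positivity, ?_⟩
  intro q hq hq4
  have hq0 : 0 < q := by omega
  have hsq : (2 : ℝ) ≤ Real.sqrt q := by
    rw [show (2 : ℝ) = Real.sqrt (2 ^ 2) by rw [Real.sqrt_sq (by norm_num)]]
    apply Real.sqrt_le_sqrt
    norm_num
    exact_mod_cast hq4
  have hB2 : (2 : ℝ) ≤ Real.sqrt q ^ m := by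
    calc (2 : ℝ) ≤ Real.sqrt q := hsq
      _ = Real.sqrt q ^ 1 := (pow_one _).symm
      _ ≤ Real.sqrt q ^ m := pow_le_pow_right₀ (by linarith) hm
  set A : Matrix (Σ i, Fin (g i)) (Σ i, Fin (g i)) ℤ :=
    Matrix.diagonal fun s => (nn g e q s : ℤ) with hA
  have hdet : A.det = ((q ^ (∑ s : Σ i, Fin (g i), e s.1 (g s.1 - s.2)) : ℕ) : ℤ) := by
    rw [hA, Matrix.det_diagonal]
    unfold nn
    rw [← Finset.prod_pow_eq_pow_sum]
    push_cast
    rfl
  have hdet0 : A.det ≠ 0 := by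
    rw [hdet]
    exact_mod_cast (pow_pos hq0 _).ne'
  have hpf : (A.det.natAbs.primeFactors.card : ℝ) ≤ (Real.sqrt q ^ m) ^ (1 / 4 : ℝ) := by
    have h1 : A.det.natAbs.primeFactors.card ≤ 1 := by
      rw [hdet, Int.natAbs_natCast]
      rw [← isPrimePow_iff_card_primeFactors_eq_one.1 hq]
      by_cases h0 : (∑ s : Σ i, Fin (g i), e s.1 (g s.1 - s.2)) = 0
      · rw [h0, pow_zero]
        simp
      · rw [Nat.primeFactors_pow _ h0]
    calc (A.det.natAbs.primeFactors.card : ℝ) ≤ 1 := by exact_mod_cast h1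
      _ ≤ _ := Real.one_le_rpow (by linarith) (by norm_num)
  have h := hC q hq (Real.sqrt q ^ m) hB2 A hdet0 hpf 0
    (fun s => -(bbM g w e q s : ℤ)) (fun s => 2 * bbM g w e q s + 1) (fun s => by
      have := (hL g w m e hE q hq0 s).1
      push_cast
      exact this)
  have hpt : ∀ y : (Σ i, Fin (g i)) → ℤ, Pool.Agent.N578.LB.aff A 0 y = pt g e q y := by
    intro y
    unfold Pool.Agent.N578.LB.aff
    funext s
    simp only [hA, Pi.add_apply, Pi.zero_apply, zero_add, Matrix.mulVec_diagonal]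
    rfl
  simp only [hpt] at h
  have hsub : {y : (Σ i, Fin (g i)) → ℤ | y ∈ yboxM g w e q ∧
        (∀ i, ¬ ((q ^ w i : ℕ) : ℤ) ∣ (polys g (pt g e q y) i).nextCoeff ^ 2) ∧
        ¬ GoodM U g (fun i => q ^ w i) (pt g e q y)} ⊆
      {y : (Σ i, Fin (g i)) → ℤ | y ∈ Pool.Agent.W521.Turan.box
          (fun s => -(bbM g w e q s : ℤ)) (fun s => 2 * bbM g w e q s + 1) ∧
        (∀ i, ¬ ((q ^ w i : ℕ) : ℤ) ∣ (polys g (pt g e q y) i).nextCoeff ^ 2) ∧
        ¬ GoodM U g (fun i => q ^ w i) (pt g e q y)} := by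
    rintro y ⟨h1, h2, h3⟩
    refine ⟨?_, h2, h3⟩
    unfold Pool.Agent.W521.Turan.box
    rw [Fintype.mem_piFinset]
    intro s
    have h4 := Fintype.mem_piFinset.1 h1 s
    rw [Finset.mem_Icc] at h4
    rw [Finset.mem_Ico]
    refine ⟨h4.1, ?_⟩
    push_cast
    linarith [h4.2]
  have hle := Set.ncard_le_ncard hsub ((Finset.finite_toSet _).subset fun y hy => hy.1)
  have hcast : ∏ s : Σ i, Fin (g i), (((2 * bbM g w e q s + 1 : ℕ)) : ℝ) =
      ∏ s : Σ i, Fin (g i), (2 * (bbM g w e q s : ℝ) + 1) := by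
    refine Finset.prod_congr rfl fun s _ => ?_
    push_cast
    rfl
  rw [DAM.rate_eq, hcast] at h
  calc _ ≤ _ := (Nat.cast_le.2 hle).trans h
    _ = C * (m / 2) * rt q m * ∏ s : Σ i, Fin (g i), (2 * (bbM g w e q s : ℝ) + 1) := by
      ring

end Pool.Agent.T2h14.HT
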